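import Mathlib

set_option autoImplicit false

namespace Pool.Agent.H62.Sulanke

/-- `f` is a standard Young tableau of rectangular shape with `3` rows and `n` columns. The filling
`f` is a bijection from the cells `(r, c)` (row `r`, column `c`, both counted from `0`, row `0` on
top) to `Fin (3 * n)`; the entry of the cell `(r, c)` is `(f (r, c) : ℕ) + 1`, so that the entries
are `1, …, 3 * n`. Entries increase along each row and down each column. -/
def IsSYT {n : ℕ} (f : Fin 3 × Fin n ≃ Fin (3 * n)) : Prop :=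
  (∀ (r : Fin 3) (c c' : Fin n), c < c' → f (r, c) < f (r, c')) ∧
  (∀ (r r' : Fin 3) (c : Fin n), r < r' → f (r, c) < f (r', c))

/-- The index in `{1, 2, 3}` of the row of the tableau `f` which contains the entry `i + 1`. -/
def row {n : ℕ} (f : Fin 3 × Fin n ≃ Fin (3 * n)) (i : Fin (3 * n)) : ℕ :=
  ((f.symm i).1 : ℕ) + 1

/-- `b f r s` is the number of entries `j` with `1 ≤ j ≤ 3 n - 1` such that `j` lies in row `r` and
`j + 1` lies in row `s` (here `j = i + 1`). -/
def b {n : ℕ} (f : Fin 3 × Fin n ≃ Fin (3 * n)) (r s : ℕ) : ℕ :=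
  (Finset.univ.filter fun i : Fin (3 * n) =>
    ∃ h : (i : ℕ) + 1 < 3 * n, row f i = r ∧ row f ⟨(i : ℕ) + 1, h⟩ = s).card

/-- The number of ascents: the number of `j` with `1 ≤ j ≤ 3 n - 1` such that the row index of `j`
is larger than the row index of `j + 1` (here `j = i + 1`). -/
def asc {n : ℕ} (f : Fin 3 × Fin n ≃ Fin (3 * n)) : ℕ :=
  (Finset.univ.filter fun i : Fin (3 * n) =>
    ∃ h : (i : ℕ) + 1 < 3 * n, row f ⟨(i : ℕ) + 1, h⟩ < row f i).card

/-- Sulanke's statistic `st₁ = b₁₂ + b₂₂ + b₂₃ - 2`. -/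
def st1 {n : ℕ} (f : Fin 3 × Fin n ≃ Fin (3 * n)) : ℤ :=
  (b f 1 2 : ℤ) + (b f 2 2 : ℤ) + (b f 2 3 : ℤ) - 2

end Pool.Agent.H62.Sulanke
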