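import Mathlib
import Pool.Agent.H62.Sulanke.Defs

set_option autoImplicit false

namespace Pool.Agent.H62.Sulanke

open Finset

variable {R : Type*} [CommRing R]

/-- number of positions `< k` with letter `r`. -/
def cnt {N : ℕ} (w : Fin N → Fin 3) (r : Fin 3) (k : ℕ) : ℕ :=
  ∑ i : Fin N, if i.val < k ∧ w i = r then 1 else 0

/-- ballot condition. -/
def ballot {N : ℕ} (w : Fin N → Fin 3) : Prop :=
  ∀ k, cnt w 2 k ≤ cnt w 1 k ∧ cnt w 1 k ≤ cnt w 0 k

/-- weight of the next letter. -/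
def nxt (M : Fin 3 → Fin 3 → R) {N : ℕ} (w : Fin N → Fin 3) (s : Fin 3) : R :=
  if h : 0 < N then M (w ⟨N - 1, by omega⟩) s else 1

/-- weight of the word. -/
def wt (M : Fin 3 → Fin 3 → R) {N : ℕ} (w : Fin N → Fin 3) : R :=
  ∏ i : Fin N, if h : i.val + 1 < N then M (w i) (w ⟨i.val + 1, h⟩) else 1

lemma cnt_snoc {N : ℕ} (w : Fin N → Fin 3) (r s : Fin 3) (k : ℕ) :
    cnt (Fin.snoc w r : Fin (N + 1) → Fin 3) s k =
      cnt w s k + if N < k ∧ r = s then 1 else 0 := by
  unfold cnt
  rw [Fin.sum_univ_castSucc]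
  simp

lemma nxt_snoc (M : Fin 3 → Fin 3 → R) {N : ℕ} (w : Fin N → Fin 3) (r s : Fin 3) :
    nxt M (Fin.snoc w r : Fin (N + 1) → Fin 3) s = M r s := by
  unfold nxt
  rw [dif_pos (Nat.succ_pos N)]
  have : (⟨N + 1 - 1, by omega⟩ : Fin (N + 1)) = Fin.last N := by
    ext; simp
  rw [this, Fin.snoc_last]

lemma wt_snoc (M : Fin 3 → Fin 3 → R) {N : ℕ} (w : Fin N → Fin 3) (r : Fin 3) :
    wt M (Fin.snoc w r : Fin (N + 1) → Fin 3) = wt M w * nxt M w r := by
  unfold wt
  rw [Fin.prod_univ_castSucc]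
  rw [dif_neg (by simp)]
  rw [mul_one]
  rcases N with _ | N
  · simp [nxt]
  · rw [Fin.prod_univ_castSucc, Fin.prod_univ_castSucc]
    have h1 : ∀ i : Fin N, (if h : ((i.castSucc.castSucc : Fin (N+1+1)) : ℕ) + 1 < N + 1 + 1 then
        M ((Fin.snoc w r : Fin (N + 1 + 1) → Fin 3) i.castSucc.castSucc)
          ((Fin.snoc w r : Fin (N + 1 + 1) → Fin 3) ⟨(i.castSucc.castSucc : Fin (N+1+1)) + 1, h⟩) else 1)
        = if h : ((i.castSucc : Fin (N+1)) : ℕ) + 1 < N + 1 then
          M (w i.castSucc) (w ⟨(i.castSucc : Fin (N+1)) + 1, h⟩) else 1 := by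
      intro i
      have hi := i.isLt
      rw [dif_pos (by simp), dif_pos (by simp)]
      rw [Fin.snoc_castSucc]
      congr 1
      have : (⟨(i.castSucc.castSucc : Fin (N+1+1)) + 1, by simp⟩ : Fin (N + 1 + 1)) =
        Fin.castSucc ⟨(i.castSucc : Fin (N+1)) + 1, by simp⟩ := by
        ext; simp
      rw [this, Fin.snoc_castSucc]
    simp only [h1]
    rw [dif_neg (by simp : ¬ ((Fin.last N : Fin (N + 1)) : ℕ) + 1 < N + 1), mul_one]
    congr 1
    rw [dif_pos (by simp)]
    rw [Fin.snoc_castSucc]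
    unfold nxt
    rw [dif_pos (by omega)]
    have : (⟨((Fin.last N).castSucc : Fin (N+1+1)) + 1, by simp⟩ : Fin (N + 1 + 1)) = Fin.last (N + 1) := by
      ext; simp
    rw [this, Fin.snoc_last]
    congr 1

lemma cnt_of_le {N : ℕ} (w : Fin N → Fin 3) (r : Fin 3) (k : ℕ) (h : N ≤ k) :
    cnt w r k = cnt w r N := by
  unfold cnt
  apply Finset.sum_congr rfl
  intro i _
  have := i.isLt
  have h1 : i.val < k := by omega
  simp [h1]

/-- content of the word -/
def content {N : ℕ} (w : Fin N → Fin 3) (a b c : ℕ) : Prop :=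
  cnt w 0 N = a ∧ cnt w 1 N = b ∧ cnt w 2 N = c

lemma ballot_snoc {N : ℕ} (w : Fin N → Fin 3) (r : Fin 3) :
    ballot (Fin.snoc w r : Fin (N + 1) → Fin 3) ↔
      ballot w ∧ cnt (Fin.snoc w r : Fin (N + 1) → Fin 3) 2 (N+1) ≤
          cnt (Fin.snoc w r : Fin (N + 1) → Fin 3) 1 (N+1)
        ∧ cnt (Fin.snoc w r : Fin (N + 1) → Fin 3) 1 (N+1) ≤
          cnt (Fin.snoc w r : Fin (N + 1) → Fin 3) 0 (N+1) := by
  constructor
  · intro h
    refine ⟨?_, (h (N+1)).1, (h (N+1)).2⟩
    intro k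
    by_cases hk : k ≤ N
    · have := h k
      simp only [cnt_snoc] at this
      have h2 : ¬ (N < k) := by omega
      simpa [h2] using this
    · have := h N
      simp only [cnt_snoc, lt_irrefl, false_and, if_false, add_zero] at this
      rw [cnt_of_le w _ k (by omega), cnt_of_le w _ k (by omega), cnt_of_le w _ k (by omega)]
      exact this
  · rintro ⟨h, h1, h2⟩ k
    by_cases hk : k ≤ N
    · have := h k
      simp only [cnt_snoc]
      have h2 : ¬ (N < k) := by omega
      simpa [h2] using this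
    · rw [cnt_of_le _ _ k (by omega), cnt_of_le _ _ k (by omega), cnt_of_le _ _ k (by omega)]
      exact ⟨h1, h2⟩

open Classical in
/-- weighted sum over ballot words. -/
noncomputable def Z (M : Fin 3 → Fin 3 → R) (N : ℕ) (a b c : ℕ) (s : Fin 3) : R :=
  ∑ w : Fin N → Fin 3, if ballot w ∧ content w a b c then wt M w * nxt M w s else 0

lemma cnt_le_of_ballot {N : ℕ} {w : Fin N → Fin 3} (h : ballot w) :
    cnt w 2 N ≤ cnt w 1 N ∧ cnt w 1 N ≤ cnt w 0 N := h N

open Classical in
lemma Z_succ (M : Fin 3 → Fin 3 → R) (N : ℕ) (a b c : ℕ) (s : Fin 3) :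
    Z M (N + 1) a b c s =
      (if c ≤ b ∧ b < a then Z M N (a - 1) b c 0 * M 0 s else 0) +
      (if c < b ∧ b ≤ a then Z M N a (b - 1) c 1 * M 1 s else 0) +
      (if 0 < c ∧ c ≤ b ∧ b ≤ a then Z M N a b (c - 1) 2 * M 2 s else 0) := by
  have key : ∀ (r : Fin 3), (∑ w : Fin N → Fin 3,
      if ballot (Fin.snoc w r : Fin (N + 1) → Fin 3) ∧
        content (Fin.snoc w r : Fin (N + 1) → Fin 3) a b c then
        wt M (Fin.snoc w r : Fin (N + 1) → Fin 3) *
        nxt M (Fin.snoc w r : Fin (N + 1) → Fin 3) s else 0) =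
      ∑ w : Fin N → Fin 3, if (c ≤ b ∧ b ≤ a) ∧ ballot w ∧
        (cnt w 0 N + (if r = 0 then 1 else 0) = a ∧ cnt w 1 N + (if r = 1 then 1 else 0) = b ∧
          cnt w 2 N + (if r = 2 then 1 else 0) = c) then wt M w * nxt M w r * M r s else 0 := by
    intro r
    apply Finset.sum_congr rfl
    intro w _
    rw [wt_snoc, nxt_snoc]
    congr 1
    rw [ballot_snoc]
    unfold content
    simp only [cnt_snoc, true_and, lt_add_iff_pos_right, zero_lt_one]
    rw [cnt_of_le w 0 (N+1) (by omega), cnt_of_le w 1 (N+1) (by omega),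
      cnt_of_le w 2 (N+1) (by omega)]
    apply propext
    constructor
    · rintro ⟨⟨h1, h2, h3⟩, h4, h5, h6⟩
      rw [h4, h5] at h3
      rw [h5, h6] at h2
      exact ⟨⟨h2, h3⟩, h1, h4, h5, h6⟩
    · rintro ⟨⟨h2, h3⟩, h1, h4, h5, h6⟩
      rw [h4, h5, h6]
      exact ⟨⟨h1, h2, h3⟩, rfl, rfl, rfl⟩
  have hsum : Z M (N + 1) a b c s = ∑ r : Fin 3, (∑ w : Fin N → Fin 3,
      if ballot (Fin.snoc w r : Fin (N + 1) → Fin 3) ∧
        content (Fin.snoc w r : Fin (N + 1) → Fin 3) a b c then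
        wt M (Fin.snoc w r : Fin (N + 1) → Fin 3) *
        nxt M (Fin.snoc w r : Fin (N + 1) → Fin 3) s else 0) := by
    unfold Z
    rw [← Fintype.sum_prod_type']
    rw [← (Fin.snocEquiv (fun _ : Fin (N+1) => Fin 3)).sum_comp]
    rfl
  rw [hsum]
  simp only [key]
  rw [Fin.sum_univ_three]
  have e01 : ((0 : Fin 3) = 1) = False := by simp
  have e02 : ((0 : Fin 3) = 2) = False := by simp
  have e10 : ((1 : Fin 3) = 0) = False := by simp
  have e12 : ((1 : Fin 3) = 2) = False := by simp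
  have e20 : ((2 : Fin 3) = 0) = False := by simp
  have e21 : ((2 : Fin 3) = 1) = False := by simp
  simp only [e01, e02, e10, e12, e20, e21, if_true, if_false, add_zero]
  congr 1
  · congr 1
    · by_cases h : c ≤ b ∧ b < a
      · rw [if_pos h]
        unfold Z
        rw [Finset.sum_mul]
        apply Finset.sum_congr rfl
        intro w _
        rw [ite_mul, zero_mul]
        congr 1
        unfold content
        apply propext
        constructor
        · rintro ⟨⟨h2, h3⟩, h1, h4, h5, h6⟩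
          exact ⟨h1, by omega, h5, h6⟩
        · rintro ⟨h1, h4, h5, h6⟩
          exact ⟨⟨h.1, by omega⟩, h1, by omega, h5, h6⟩
      · rw [if_neg h]
        apply Finset.sum_eq_zero
        intro w _
        rw [if_neg]
        rintro ⟨⟨h2, h3⟩, h1, h4, h5, h6⟩
        have := cnt_le_of_ballot h1
        apply h
        omega
    · by_cases h : c < b ∧ b ≤ a
      · rw [if_pos h]
        unfold Z
        rw [Finset.sum_mul]
        apply Finset.sum_congr rfl
        intro w _
        rw [ite_mul, zero_mul]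
        congr 1
        unfold content
        apply propext
        constructor
        · rintro ⟨⟨h2, h3⟩, h1, h4, h5, h6⟩
          exact ⟨h1, by omega, by omega, by omega⟩
        · rintro ⟨h1, h4, h5, h6⟩
          refine ⟨⟨by omega, h.2⟩, h1, ?_⟩
          omega
      · rw [if_neg h]
        apply Finset.sum_eq_zero
        intro w _
        rw [if_neg]
        rintro ⟨⟨h2, h3⟩, h1, h4, h5, h6⟩
        have := cnt_le_of_ballot h1
        apply h
        omega
  · by_cases h : 0 < c ∧ c ≤ b ∧ b ≤ a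
    · rw [if_pos h]
      unfold Z
      rw [Finset.sum_mul]
      apply Finset.sum_congr rfl
      intro w _
      rw [ite_mul, zero_mul]
      congr 1
      unfold content
      apply propext
      constructor
      · rintro ⟨⟨h2, h3⟩, h1, h4, h5, h6⟩
        exact ⟨h1, by omega, by omega, by omega⟩
      · rintro ⟨h1, h4, h5, h6⟩
        refine ⟨⟨h.2.1, h.2.2⟩, h1, ?_⟩
        omega
    · rw [if_neg h]
      apply Finset.sum_eq_zero
      intro w _
      rw [if_neg]
      rintro ⟨⟨h2, h3⟩, h1, h4, h5, h6⟩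
      have := cnt_le_of_ballot h1
      apply h
      omega

open Classical in
lemma Z_zero (M : Fin 3 → Fin 3 → R) (a b c : ℕ) (s : Fin 3) :
    Z M 0 a b c s = if a = 0 ∧ b = 0 ∧ c = 0 then 1 else 0 := by
  unfold Z
  have key : ∀ w : Fin 0 → Fin 3, (if ballot w ∧ content w a b c then wt M w * nxt M w s else 0)
      = if a = 0 ∧ b = 0 ∧ c = 0 then 1 else 0 := by
    intro w
    have h3 : ∀ r k, cnt w r k = 0 := by
      intro r k; simp [cnt]
    have h4 : (ballot w ∧ content w a b c) ↔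
        (a = 0 ∧ b = 0 ∧ c = 0) := by
      unfold ballot content
      simp only [h3]
      constructor
      · rintro ⟨_, h, h', h''⟩
        exact ⟨h.symm, h'.symm, h''.symm⟩
      · rintro ⟨h, h', h''⟩
        exact ⟨fun k => ⟨le_refl _, le_refl _⟩, h.symm, h'.symm, h''.symm⟩
    by_cases h5 : a = 0 ∧ b = 0 ∧ c = 0
    · rw [if_pos (h4.mpr h5), if_pos h5]
      simp [wt, nxt]
    · rw [if_neg (fun h => h5 (h4.mp h)), if_neg h5]
  rw [Finset.sum_congr rfl (fun w _ => key w)]
  simp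

end Pool.Agent.H62.Sulanke
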