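import Mathlib
import Pool.Agent.H62.Sulanke.Defs
import Pool.Agent.H62.Sulanke.Words

set_option autoImplicit false

namespace Pool.Agent.H62.Sulanke

open Finset

/-- the row word of a tableau -/
def word {n : ℕ} (f : Fin 3 × Fin n ≃ Fin (3 * n)) : Fin (3 * n) → Fin 3 := fun i => (f.symm i).1

lemma cnt_eq_card {N : ℕ} (w : Fin N → Fin 3) (r : Fin 3) (k : ℕ) :
    cnt w r k = (univ.filter fun i : Fin N => i.val < k ∧ w i = r).card := by
  unfold cnt
  rw [Finset.card_filter]

lemma word_apply {n : ℕ} (f : Fin 3 × Fin n ≃ Fin (3 * n)) (r : Fin 3) (c : Fin n) :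
    word f (f (r, c)) = r := by simp [word]

lemma content_word {n : ℕ} (f : Fin 3 × Fin n ≃ Fin (3 * n)) : content (word f) n n n := by
  have key : ∀ r, cnt (word f) r (3 * n) = n := by
    intro r
    rw [cnt_eq_card]
    have : (univ.filter fun i : Fin (3 * n) => i.val < 3 * n ∧ word f i = r) =
        (univ : Finset (Fin n)).image (fun c => f (r, c)) := by
      ext i
      simp only [mem_filter, mem_univ, true_and, mem_image]
      constructor
      · rintro ⟨_, h⟩
        refine ⟨(f.symm i).2, ?_⟩
        have : (r, (f.symm i).2) = f.symm i := by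
          ext
          · simp [← h, word]
          · rfl
        rw [this, Equiv.apply_symm_apply]
      · rintro ⟨c, rfl⟩
        exact ⟨(f (r, c)).isLt, word_apply f r c⟩
    rw [this, card_image_of_injective, card_univ, Fintype.card_fin]
    intro c c' h
    have := f.injective h
    simpa using this
  exact ⟨key 0, key 1, key 2⟩

lemma cnt_word_le {n : ℕ} {f : Fin 3 × Fin n ≃ Fin (3 * n)} (hf : IsSYT f) (r s : Fin 3)
    (hrs : r < s) (k : ℕ) : cnt (word f) s k ≤ cnt (word f) r k := by
  rw [cnt_eq_card, cnt_eq_card]
  apply Finset.card_le_card_of_injOn (fun i => f (r, (f.symm i).2))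
  · intro i hi
    simp only [coe_filter, mem_univ, true_and, Set.mem_ofPred_eq] at hi ⊢
    refine ⟨?_, word_apply f r _⟩
    have h1 : f (r, (f.symm i).2) < f (s, (f.symm i).2) := hf.2 r s _ hrs
    have h2 : (s, (f.symm i).2) = f.symm i := by
      ext
      · simp [← hi.2, word]
      · rfl
    rw [h2, Equiv.apply_symm_apply] at h1
    exact lt_trans (by exact_mod_cast h1) hi.1
  · intro i hi j hj h
    simp only [coe_filter, mem_univ, true_and, Set.mem_ofPred_eq] at hi hj
    have h3 := f.injective h
    simp only [Prod.mk.injEq, true_and] at h3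
    have h4 : f.symm i = f.symm j := by
      ext
      · have := hi.2.trans hj.2.symm
        simpa [word] using congrArg Fin.val this
      · rw [h3]
    exact f.symm.injective h4

lemma ballot_word {n : ℕ} {f : Fin 3 × Fin n ≃ Fin (3 * n)} (hf : IsSYT f) : ballot (word f) :=
  fun k => ⟨cnt_word_le hf 1 2 (by decide) k, cnt_word_le hf 0 1 (by decide) k⟩

lemma range_row {n : ℕ} (f : Fin 3 × Fin n ≃ Fin (3 * n)) (r : Fin 3) :
    Set.range (fun c => f (r, c)) = {i | word f i = r} := by
  ext i
  simp only [Set.mem_range, Set.mem_ofPred_eq]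
  constructor
  · rintro ⟨c, rfl⟩
    exact word_apply f r c
  · intro h
    refine ⟨(f.symm i).2, ?_⟩
    have : (r, (f.symm i).2) = f.symm i := by
      ext
      · simp [← h, word]
      · rfl
    rw [this, Equiv.apply_symm_apply]

lemma word_inj {n : ℕ} {f g : Fin 3 × Fin n ≃ Fin (3 * n)} (hf : IsSYT f) (hg : IsSYT g)
    (h : word f = word g) : f = g := by
  have key : ∀ r, (fun c => f (r, c)) = (fun c => g (r, c)) := by
    intro r
    have h1 : StrictMono (fun c => f (r, c)) := fun c c' hc => hf.1 r c c' hc
    have h2 : StrictMono (fun c => g (r, c)) := fun c c' hc => hg.1 r c c' hc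
    rw [← h1.range_inj h2, range_row, range_row, h]
  ext ⟨r, c⟩
  exact congrArg Fin.val (congrFun (key r) c)

lemma word_surj {n : ℕ} (w : Fin (3 * n) → Fin 3) (hb : ballot w) (hc : content w n n n) :
    ∃ f : Fin 3 × Fin n ≃ Fin (3 * n), IsSYT f ∧ word f = w := by
  have hcard : ∀ r, (univ.filter fun i => w i = r).card = n := by
    intro r
    have h1 : cnt w r (3 * n) = n := by
      fin_cases r
      · exact hc.1
      · exact hc.2.1
      · exact hc.2.2
    rw [cnt_eq_card] at h1
    refine Eq.trans ?_ h1
    congr 1
    ext i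
    have := i.isLt
    simp
  let e : ∀ r, Fin n ↪o Fin (3 * n) := fun r => (univ.filter fun i => w i = r).orderEmbOfFin (hcard r)
  have he : ∀ r c, w (e r c) = r := by
    intro r c
    have := Finset.orderEmbOfFin_mem (univ.filter fun i => w i = r) (hcard r) c
    exact (Finset.mem_filter.mp this).2
  let g : Fin 3 × Fin n → Fin (3 * n) := fun p => e p.1 p.2
  have hg : Function.Injective g := by
    rintro ⟨r, c⟩ ⟨r', c'⟩ h
    have h' : e r c = e r' c' := h
    have h1 : r = r' := by rw [← he r c, ← he r' c', h']
    subst h1
    have h2 : c = c' := (e r).injective h'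
    rw [h2]
  have hbij : Function.Bijective g := by
    rw [Fintype.bijective_iff_injective_and_card]
    refine ⟨hg, by simp⟩
  refine ⟨Equiv.ofBijective g hbij, ⟨?_, ?_⟩, ?_⟩
  · intro r c c' hcc
    exact (e r).strictMono hcc
  · -- columns
    have key : ∀ r s : Fin 3, (∀ k, cnt w s k ≤ cnt w r k) → r ≠ s → ∀ c, e r c < e s c := by
      intro r s hk hrs c
      by_contra hcon
      push Not at hcon
      have hne : e s c ≠ e r c := by
        intro h
        apply hrs
        rw [← he r c, ← he s c, h]
      have hlt : e s c < e r c := lt_of_le_of_ne hcon hne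
      have h1 := hk ((e s c : ℕ) + 1)
      have h2 : (c : ℕ) + 1 ≤ cnt w s ((e s c : ℕ) + 1) := by
        rw [cnt_eq_card]
        have : (univ.filter fun c' : Fin n => c' ≤ c).card = (c : ℕ) + 1 := by
          rw [show (univ.filter fun c' : Fin n => c' ≤ c) = Finset.Iic c by ext; simp]
          rw [Fin.card_Iic]
        rw [← this]
        apply Finset.card_le_card_of_injOn (fun c' => e s c')
        · intro c' hc'
          simp only [coe_filter, mem_univ, true_and, Set.mem_ofPred_eq] at hc' ⊢
          refine ⟨?_, he s c'⟩
          have : e s c' ≤ e s c := (e s).monotone hc'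
          have : (e s c' : ℕ) ≤ (e s c : ℕ) := this
          omega
        · intro a _ b _ h
          exact (e s).injective h
      have h3 : cnt w r ((e s c : ℕ) + 1) ≤ c := by
        rw [cnt_eq_card]
        have : (univ.filter fun c' : Fin n => c' < c).card = (c : ℕ) := by
          rw [show (univ.filter fun c' : Fin n => c' < c) = Finset.Iio c by ext; simp]
          rw [Fin.card_Iio]
        conv_rhs => rw [← this]
        have hsub : (univ.filter fun i : Fin (3 * n) => i.val < (e s c : ℕ) + 1 ∧ w i = r) ⊆
            (univ.filter fun c' : Fin n => c' < c).image (fun c' => e r c') := by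
          intro i hi
          simp only [mem_filter, mem_univ, true_and, mem_image] at hi ⊢
          have hmem : i ∈ Set.range (e r) := by
            have := Finset.range_orderEmbOfFin (univ.filter fun i => w i = r) (hcard r)
            rw [this]
            simpa using hi.2
          obtain ⟨c', hc'⟩ := hmem
          refine ⟨c', ?_, hc'⟩
          have h5 : e r c' < e r c := by
            rw [hc']
            have : (i : ℕ) < (e r c : ℕ) := by
              have : (e s c : ℕ) < (e r c : ℕ) := hlt
              omega
            exact this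
          exact (e r).lt_iff_lt.mp h5
        exact le_trans (Finset.card_le_card hsub) Finset.card_image_le
      omega
    have k01 : ∀ c, e 0 c < e 1 c := key 0 1 (fun k => (hb k).2) (by decide)
    have k12 : ∀ c, e 1 c < e 2 c := key 1 2 (fun k => (hb k).1) (by decide)
    intro r s c hrs
    show e r c < e s c
    fin_cases r <;> fin_cases s <;> first | exact absurd hrs (by decide) | exact k01 c | exact k12 c | exact (k01 c).trans (k12 c)
  · funext i
    obtain ⟨⟨r, c⟩, rfl⟩ := hbij.2 i
    have h1 : word (Equiv.ofBijective g hbij) (Equiv.ofBijective g hbij (r, c)) = r := word_apply _ r c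
    have h2 : (Equiv.ofBijective g hbij (r, c)) = g (r, c) := rfl
    rw [h2] at h1
    rw [h1]
    exact (he r c).symm

open Classical in
lemma sum_SYT {R : Type*} [AddCommMonoid R] {n : ℕ} (φ : (Fin (3 * n) → Fin 3) → R) :
    ∑ f ∈ univ.filter (fun f : Fin 3 × Fin n ≃ Fin (3 * n) => IsSYT f), φ (word f) =
      ∑ w : Fin (3 * n) → Fin 3, if ballot w ∧ content w n n n then φ w else 0 := by
  rw [← Finset.sum_filter]
  apply Finset.sum_bij (fun f _ => word f)
  · intro f hf
    simp only [mem_filter, mem_univ, true_and] at hf ⊢
    exact ⟨ballot_word hf, content_word f⟩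
  · intro f hf g hg h
    simp only [mem_filter, mem_univ, true_and] at hf hg
    exact word_inj hf hg h
  · intro w hw
    simp only [mem_filter, mem_univ, true_and] at hw
    obtain ⟨f, hf, hfw⟩ := word_surj w hw.1 hw.2
    exact ⟨f, by simp [hf], hfw⟩
  · intro f _
    rfl

end Pool.Agent.H62.Sulanke
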