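import Mathlib

set_option autoImplicit false

namespace Pool.Agent.H62.Sulanke

open Finset

/-- auxiliary polynomial -/
def Phi (m α β γ : ℚ) : ℚ :=
  (α - β + 1) * (α - γ + 2) * (m + α + 1) * (m + α)
    - ((α - β + 1) + (α - γ + 2)) * m * (m + α) + m * (m - α - 2)

/-- closed form for tandem walks with `m` null steps -/
def Vq (m α β γ : ℕ) : ℚ :=
  if m = 0 ∧ α = 0 then 1 else
    ((m + α + β + γ).factorial : ℚ) * ((β : ℚ) - γ + 1) * Phi m α β γ /
      (((m : ℚ) + α) * (m + α + 1) * (m + α + 2) * ((β + 1).factorial : ℚ) * (γ.factorial : ℚ)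
        * (m.factorial : ℚ) * ((α + 1).factorial : ℚ))

/-- common factor -/
def Kq (N m α β γ : ℕ) : ℚ :=
  (N.factorial : ℚ) / (((β + 1).factorial : ℚ) * (γ.factorial : ℚ)
        * (m.factorial : ℚ) * ((α + 1).factorial : ℚ))

lemma Vq_zero (N m α β γ : ℕ) (hN : m + α + β + γ = N + 1) (h : 1 ≤ m + α) :
    Vq m α β γ = Kq N m α β γ * (((m : ℚ) + α + β + γ) * ((β : ℚ) - γ + 1) * Phi m α β γ /
      (((m : ℚ) + α) * (m + α + 1) * (m + α + 2))) := by
  unfold Vq Kq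
  rw [if_neg (by omega), hN, Nat.factorial_succ]
  have h1 : ((m : ℚ) + α + β + γ) = ((N + 1 : ℕ) : ℚ) := by rw [← hN]; push_cast; ring
  rw [h1]
  push_cast
  have := Nat.factorial_ne_zero
  field_simp

lemma Vq_one (N m α β γ : ℕ) (hN : m + (α + 1) + β + γ = N + 1) (h : 1 ≤ m + α) :
    Vq m α β γ = Kq N m (α + 1) β γ * (((α + 1 : ℕ) + 1 : ℚ) * ((β : ℚ) - γ + 1) *
      Phi m (((α + 1 : ℕ) : ℚ) - 1) β γ /
      (((m : ℚ) + (α + 1 : ℕ) - 1) * (m + (α + 1 : ℕ)) * (m + (α + 1 : ℕ) + 1))) := by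
  unfold Vq Kq
  rw [if_neg (by omega), show m + α + β + γ = N by omega, Nat.factorial_succ (α + 1)]
  have h2 : (m : ℚ) + α ≠ 0 := by
    have : ((m + α : ℕ) : ℚ) ≠ 0 := by
      exact_mod_cast (by omega : m + α ≠ 0)
    push_cast at this
    exact this
  have h4 : (m : ℚ) + (α + 1 : ℕ) - 1 ≠ 0 := by
    push_cast
    intro h; apply h2; linarith
  push_cast
  push_cast at h4
  have e1 : ((α : ℚ) + 1 - 1) = α := by ring
  rw [e1]
  have e2 : ((m : ℚ) + (α + 1) - 1) = m + α := by ring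
  rw [e2]
  have e3 : ((m : ℚ) + (α + 1)) = m + α + 1 := by ring
  rw [e3]
  have e4 : ((m : ℚ) + α + 1 + 1) = m + α + 2 := by ring
  rw [e4]
  field_simp

lemma Vq_two (N m α β γ : ℕ) (hN : m + α + (β + 1) + γ = N + 1) (h : 1 ≤ m + α) :
    Vq m α β γ = Kq N m α (β + 1) γ * (((β + 1 : ℕ) + 1 : ℚ) * (((β + 1 : ℕ) : ℚ) - γ) *
      Phi m α (((β + 1 : ℕ) : ℚ) - 1) γ /
      (((m : ℚ) + α) * (m + α + 1) * (m + α + 2))) := by
  unfold Vq Kq
  rw [if_neg (by omega), show m + α + β + γ = N by omega, Nat.factorial_succ (β + 1)]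
  push_cast
  have e1 : ((β : ℚ) + 1 - 1) = β := by ring
  rw [e1]
  field_simp
  ring

lemma Vq_three (N m α β γ : ℕ) (hN : m + α + β + (γ + 1) = N + 1) (h : 1 ≤ m + α) :
    Vq m α β γ = Kq N m α β (γ + 1) * ((γ + 1 : ℕ) * ((β : ℚ) - (γ + 1 : ℕ) + 2) *
      Phi m α β (((γ + 1 : ℕ) : ℚ) - 1) /
      (((m : ℚ) + α) * (m + α + 1) * (m + α + 2))) := by
  unfold Vq Kq
  rw [if_neg (by omega), show m + α + β + γ = N by omega, Nat.factorial_succ γ]
  push_cast
  have e1 : ((γ : ℚ) + 1 - 1) = γ := by ring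
  rw [e1]
  have e2 : ((β : ℚ) - (γ + 1) + 2) = β - γ + 1 := by ring
  rw [e2]
  field_simp

lemma Vq_four (N m α β γ : ℕ) (hN : (m + 1) + α + β + γ = N + 1) (h : 1 ≤ m + α) :
    Vq m α β γ = Kq N (m + 1) α β γ * ((m + 1 : ℕ) * ((β : ℚ) - γ + 1) *
      Phi (((m + 1 : ℕ) : ℚ) - 1) α β γ /
      ((((m + 1 : ℕ) : ℚ) + α - 1) * ((m + 1 : ℕ) + α) * ((m + 1 : ℕ) + α + 1))) := by
  unfold Vq Kq
  rw [if_neg (by omega), show m + α + β + γ = N by omega, Nat.factorial_succ m]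
  have h2 : (m : ℚ) + α ≠ 0 := by
    have : ((m + α : ℕ) : ℚ) ≠ 0 := by
      exact_mod_cast (by omega : m + α ≠ 0)
    push_cast at this
    exact this
  push_cast
  have e1 : ((m : ℚ) + 1 - 1) = m := by ring
  rw [e1]
  have e2 : ((m : ℚ) + 1 + α - 1) = m + α := by ring
  rw [e2]
  have e3 : ((m : ℚ) + 1 + α) = m + α + 1 := by ring
  rw [e3]
  have e4 : ((m : ℚ) + α + 1 + 1) = m + α + 2 := by ring
  rw [e4]
  field_simp

lemma id_main (m α β γ : ℚ) (h1 : m + α - 1 ≠ 0) (h2 : m + α ≠ 0) (h3 : m + α + 1 ≠ 0)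
    (h4 : m + α + 2 ≠ 0) :
    ((m + α + β + γ) * (β - γ + 1) * Phi m α β γ / ((m + α) * (m + α + 1) * (m + α + 2))) =
    ((α + 1) * (β - γ + 1) * Phi m (α - 1) β γ / ((m + α - 1) * (m + α) * (m + α + 1))) +
    ((β + 1) * (β - γ) * Phi m α (β - 1) γ / ((m + α) * (m + α + 1) * (m + α + 2))) +
    (γ * (β - γ + 2) * Phi m α β (γ - 1) / ((m + α) * (m + α + 1) * (m + α + 2))) +
    (m * (β - γ + 1) * Phi (m - 1) α β γ / ((m + α - 1) * (m + α) * (m + α + 1))) := by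
  unfold Phi
  field_simp
  ring

lemma id_diag (m α γ : ℚ) :
    ((α + 1) * (α - γ + 1) * Phi m (α - 1) α γ) +
    (m * (α - γ + 1) * Phi (m - 1) α α γ) = 0 := by
  unfold Phi
  ring

lemma Vq_rec (m α β γ : ℕ) (hγ : γ ≤ β) (hβ : β ≤ α) (h : 1 ≤ m + α) :
    Vq m α β γ = (if β < α then Vq m (α - 1) β γ else 0) + (if γ < β then Vq m α (β - 1) γ else 0)
      + (if 0 < γ then Vq m α β (γ - 1) else 0)
      + (if β < α ∧ 0 < m then Vq (m - 1) α β γ else 0) := by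
  rcases Nat.lt_or_ge 1 (m + α) with h1 | h1
  · obtain ⟨N, hN⟩ : ∃ N, m + α + β + γ = N + 1 := ⟨m + α + β + γ - 1, by omega⟩
    have hma : (1 : ℚ) < (m : ℚ) + α := by exact_mod_cast h1
    have n1 : (m : ℚ) + α - 1 ≠ 0 := by intro h; linarith
    have n2 : (m : ℚ) + α ≠ 0 := by intro h; linarith
    have n3 : (m : ℚ) + α + 1 ≠ 0 := by intro h; linarith
    have n4 : (m : ℚ) + α + 2 ≠ 0 := by intro h; linarith
    have A2 : (if γ < β then Vq m α (β - 1) γ else 0) = Kq N m α β γ *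
        (((β : ℚ) + 1) * ((β : ℚ) - γ) * Phi m α ((β : ℚ) - 1) γ /
        (((m : ℚ) + α) * (m + α + 1) * (m + α + 2))) := by
      rcases Nat.lt_or_ge γ β with hh | hh
      · rw [if_pos hh]
        obtain ⟨β', rfl⟩ : ∃ β', β = β' + 1 := ⟨β - 1, by omega⟩
        exact Vq_two N m α β' γ hN h
      · rw [if_neg (by omega)]
        have : β = γ := by omega
        subst this
        ring
    have A3 : (if 0 < γ then Vq m α β (γ - 1) else 0) = Kq N m α β γ *
        ((γ : ℚ) * ((β : ℚ) - γ + 2) * Phi m α β ((γ : ℚ) - 1) /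
        (((m : ℚ) + α) * (m + α + 1) * (m + α + 2))) := by
      rcases Nat.eq_zero_or_pos γ with hh | hh
      · subst hh
        rw [if_neg (by omega)]
        push_cast
        ring
      · rw [if_pos hh]
        obtain ⟨γ', rfl⟩ : ∃ γ', γ = γ' + 1 := ⟨γ - 1, by omega⟩
        exact Vq_three N m α β γ' hN h
    have hid := id_main m α β γ n1 n2 n3 n4
    rw [A2, A3, Vq_zero N m α β γ hN h, hid]
    rcases Nat.lt_or_ge β α with hh | hh
    · have A1 : Vq m (α - 1) β γ = Kq N m α β γ *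
        (((α : ℚ) + 1) * ((β : ℚ) - γ + 1) * Phi m ((α : ℚ) - 1) β γ /
          (((m : ℚ) + α - 1) * (m + α) * (m + α + 1))) := by
        obtain ⟨α', rfl⟩ : ∃ α', α = α' + 1 := ⟨α - 1, by omega⟩
        exact Vq_one N m α' β γ hN (by omega)
      have A4 : (if β < α ∧ 0 < m then Vq (m - 1) α β γ else 0) = Kq N m α β γ *
        ((m : ℚ) * ((β : ℚ) - γ + 1) * Phi ((m : ℚ) - 1) α β γ /
          (((m : ℚ) + α - 1) * (m + α) * (m + α + 1))) := by
        rcases Nat.eq_zero_or_pos m with hm | hm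
        · subst hm
          rw [if_neg (by omega)]
          push_cast
          ring
        · rw [if_pos ⟨hh, hm⟩]
          obtain ⟨m', rfl⟩ : ∃ m', m = m' + 1 := ⟨m - 1, by omega⟩
          exact Vq_four N m' α β γ hN (by omega)
      rw [A4, if_pos hh, A1]
      ring
    · have : α = β := by omega
      subst this
      rw [if_neg (by omega), if_neg (by omega)]
      have hd := id_diag m α γ
      have : ((α : ℚ) + 1) * (α - γ + 1) * Phi m (α - 1) α γ / ((m + α - 1) * (m + α) * (m + α + 1))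
          + m * (α - γ + 1) * Phi (m - 1) α α γ / ((m + α - 1) * (m + α) * (m + α + 1)) = 0 := by
        rw [← add_div, hd, zero_div]
      linear_combination Kq N m α α γ * this
  · have h2 : (m = 0 ∧ α = 1) ∨ (m = 1 ∧ α = 0) := by omega
    rcases h2 with ⟨rfl, rfl⟩ | ⟨rfl, rfl⟩
    · have h3 : (β = 0 ∧ γ = 0) ∨ (β = 1 ∧ γ = 0) ∨ (β = 1 ∧ γ = 1) := by omega
      rcases h3 with ⟨rfl, rfl⟩ | ⟨rfl, rfl⟩ | ⟨rfl, rfl⟩
      · norm_num [Vq, Phi, Nat.factorial]
      · norm_num [Vq, Phi, Nat.factorial]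
      · norm_num [Vq, Phi, Nat.factorial]
    · have h3 : β = 0 := by omega
      have h4 : γ = 0 := by omega
      subst h3 h4
      norm_num [Vq, Phi, Nat.factorial]

/-- the coefficients -/
def cnb (n b : ℕ) : ℚ := 2 * ((n + 2 * b).factorial : ℚ) * ((n - 1).choose (b - 1) : ℚ) /
  ((b.factorial : ℚ) * ((b + 1).factorial : ℚ) * ((n + 2).factorial : ℚ))

lemma Vq_diag (n b : ℕ) (hn : 1 ≤ n) (hb : 1 ≤ b) (hbn : b ≤ n) :
    Vq (n - b) b b b = cnb n b := by
  obtain ⟨m, rfl⟩ : ∃ m, n = b + m := ⟨n - b, by omega⟩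
  obtain ⟨b', rfl⟩ : ∃ b', b = b' + 1 := ⟨b - 1, by omega⟩
  unfold Vq cnb
  rw [if_neg (by omega)]
  rw [show b' + 1 + m - (b' + 1) = m by omega]
  rw [show b' + 1 + m - 1 = b' + m by omega, show b' + 1 - 1 = b' by omega]
  rw [show m + (b' + 1) + (b' + 1) + (b' + 1) = b' + 1 + m + 2 * (b' + 1) by omega]
  have h1 : ((b' + m).choose b' : ℚ) = ((b' + m).factorial : ℚ) / ((b'.factorial : ℚ) * (m.factorial : ℚ)) := by
    have := Nat.add_choose_mul_factorial_mul_factorial b' m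
    rw [← Nat.choose_symm_add] at this
    rw [← this]
    push_cast
    field_simp
  rw [h1]
  have h2 : ((b' + 1 + m + 2).factorial : ℚ) = (b' + m + 3) * (b' + m + 2) * (b' + m + 1) * ((b' + m).factorial : ℚ) := by
    rw [show b' + 1 + m + 2 = b' + m + 1 + 1 + 1 by omega, Nat.factorial_succ, Nat.factorial_succ, Nat.factorial_succ]
    push_cast
    ring
  rw [h2]
  have h3 : ((b' + 1).factorial : ℚ) = (b' + 1) * (b'.factorial : ℚ) := by
    rw [Nat.factorial_succ]; push_cast; ring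
  have h4 : ((b' + 1 + 1).factorial : ℚ) = (b' + 2) * ((b' + 1) * (b'.factorial : ℚ)) := by
    rw [Nat.factorial_succ, Nat.factorial_succ]; push_cast; ring
  rw [h3, h4]
  unfold Phi
  push_cast
  have e0 : (m : ℚ) + (b' + 1) = b' + m + 1 := by ring
  rw [e0]
  have p1 : (b' : ℚ) + m + 1 ≠ 0 := by positivity
  field_simp
  ring

lemma Vq_zero_diag (n : ℕ) (hn : 1 ≤ n) : Vq n 0 0 0 = 0 := by
  unfold Vq
  rw [if_neg (by omega)]
  unfold Phi
  push_cast
  ring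

end Pool.Agent.H62.Sulanke
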