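import Mathlib
import Pool.Agent.H62.Sulanke.Words

set_option autoImplicit false

namespace Pool.Agent.H62.Sulanke

open Finset

variable {R : Type*} [CommRing R]

/-- adding a box to the first row -/
def U0 : (ℕ → ℕ → ℕ → R) →ₗ[R] (ℕ → ℕ → ℕ → R) where
  toFun f := fun a b c => if c ≤ b ∧ b < a then f (a - 1) b c else 0
  map_add' f g := by
    funext a b c
    simp only [Pi.add_apply]
    split_ifs <;> simp
  map_smul' r f := by
    funext a b c
    simp only [Pi.smul_apply, RingHom.id_apply, smul_eq_mul]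
    split_ifs <;> simp

/-- adding a box to the second row -/
def U1 : (ℕ → ℕ → ℕ → R) →ₗ[R] (ℕ → ℕ → ℕ → R) where
  toFun f := fun a b c => if c < b ∧ b ≤ a then f a (b - 1) c else 0
  map_add' f g := by
    funext a b c
    simp only [Pi.add_apply]
    split_ifs <;> simp
  map_smul' r f := by
    funext a b c
    simp only [Pi.smul_apply, RingHom.id_apply, smul_eq_mul]
    split_ifs <;> simp

/-- adding a box to the third row -/
def U2 : (ℕ → ℕ → ℕ → R) →ₗ[R] (ℕ → ℕ → ℕ → R) where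
  toFun f := fun a b c => if 0 < c ∧ c ≤ b ∧ b ≤ a then f a b (c - 1) else 0
  map_add' f g := by
    funext a b c
    simp only [Pi.add_apply]
    split_ifs <;> simp
  map_smul' r f := by
    funext a b c
    simp only [Pi.smul_apply, RingHom.id_apply, smul_eq_mul]
    split_ifs <;> simp

/-- delta at the empty shape -/
def dl : ℕ → ℕ → ℕ → R := fun a b c => if a = 0 ∧ b = 0 ∧ c = 0 then 1 else 0

lemma U0_apply (f : ℕ → ℕ → ℕ → R) (a b c : ℕ) :
    U0 f a b c = if c ≤ b ∧ b < a then f (a - 1) b c else 0 := rfl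
lemma U1_apply (f : ℕ → ℕ → ℕ → R) (a b c : ℕ) :
    U1 f a b c = if c < b ∧ b ≤ a then f a (b - 1) c else 0 := rfl
lemma U2_apply (f : ℕ → ℕ → ℕ → R) (a b c : ℕ) :
    U2 f a b c = if 0 < c ∧ c ≤ b ∧ b ≤ a then f a b (c - 1) else 0 := rfl

lemma U0_U2 (f : ℕ → ℕ → ℕ → R) : U0 (U2 f) = U2 (U0 f) := by
  funext a b c
  simp only [U0_apply, U2_apply]
  by_cases h : 0 < c ∧ c ≤ b ∧ b < a
  · rw [if_pos (by omega), if_pos (by omega), if_pos (by omega), if_pos (by omega)]
  · by_cases h1 : c ≤ b ∧ b < a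
    · rw [if_pos h1, if_neg (by omega), if_neg (by omega)]
    · rw [if_neg h1]
      by_cases h2 : 0 < c ∧ c ≤ b ∧ b ≤ a
      · rw [if_pos h2, if_neg (by omega)]
      · rw [if_neg h2]

lemma U1_dl : U1 (dl : ℕ → ℕ → ℕ → R) = 0 := by
  funext a b c
  simp only [U1_apply, dl, Pi.zero_apply]
  by_cases h : c < b ∧ b ≤ a
  · rw [if_pos h, if_neg (by omega)]
  · rw [if_neg h]

lemma U2_dl : U2 (dl : ℕ → ℕ → ℕ → R) = 0 := by
  funext a b c
  simp only [U2_apply, dl, Pi.zero_apply]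
  by_cases h : 0 < c ∧ c ≤ b ∧ b ≤ a
  · rw [if_pos h, if_neg (by omega)]
  · rw [if_neg h]

lemma U0_diag (f : ℕ → ℕ → ℕ → R) (n : ℕ) : U0 f n n n = 0 := by
  rw [U0_apply, if_neg (by omega)]

lemma U1_diag (f : ℕ → ℕ → ℕ → R) (n : ℕ) : U1 f n n n = 0 := by
  rw [U1_apply, if_neg (by omega)]

lemma dl_pos {n : ℕ} (hn : 1 ≤ n) : (dl : ℕ → ℕ → ℕ → R) n n n = 0 := by
  unfold dl
  rw [if_neg (by omega)]

/-- The weighted sum over ballot words, as function of the shape. -/
noncomputable def F (M : Fin 3 → Fin 3 → R) (s : Fin 3) : ℕ → ℕ → ℕ → R :=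
  fun a b c => Z M (a + b + c) a b c s

lemma F_eq (M : Fin 3 → Fin 3 → R) (s : Fin 3) :
    F M s = dl + M 0 s • U0 (F M 0) + M 1 s • U1 (F M 1) + M 2 s • U2 (F M 2) := by
  funext a b c
  simp only [Pi.add_apply, Pi.smul_apply, smul_eq_mul, U0_apply, U1_apply, U2_apply]
  by_cases h0 : a = 0 ∧ b = 0 ∧ c = 0
  · obtain ⟨rfl, rfl, rfl⟩ := h0
    simp only [F, dl]
    rw [Z_zero]
    simp
  · obtain ⟨N, hN⟩ : ∃ N, a + b + c = N + 1 := ⟨a + b + c - 1, by omega⟩
    have h1 : F M s a b c = Z M (N + 1) a b c s := by unfold F; rw [hN]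
    rw [h1, Z_succ]
    have hd : (dl : ℕ → ℕ → ℕ → R) a b c = 0 := by
      unfold dl; rw [if_neg h0]
    rw [hd, zero_add]
    congr 1
    · congr 1
      · by_cases h : c ≤ b ∧ b < a
        · rw [if_pos h, if_pos h]
          unfold F
          rw [show a - 1 + b + c = N by omega]
          ring
        · rw [if_neg h, if_neg h, mul_zero]
      · by_cases h : c < b ∧ b ≤ a
        · rw [if_pos h, if_pos h]
          unfold F
          rw [show a + (b - 1) + c = N by omega]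
          ring
        · rw [if_neg h, if_neg h, mul_zero]
    · by_cases h : 0 < c ∧ c ≤ b ∧ b ≤ a
      · rw [if_pos h, if_pos h]
        unfold F
        rw [show a + b + (c - 1) = N by omega]
        ring
      · rw [if_neg h, if_neg h, mul_zero]

/-- transition weights for `b₁₂ + b₂₂ + b₂₃`. -/
def M1 (t : R) : Fin 3 → Fin 3 → R := fun s r =>
  if (s = 0 ∧ r = 1) ∨ (s = 1 ∧ r = 1) ∨ (s = 1 ∧ r = 2) then t else 1

/-- transition weights for ascents. -/
def M2 (t : R) : Fin 3 → Fin 3 → R := fun s r => if r < s then t else 1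

lemma st_eq (u t : R) (htu : t = 1 + u) :
    F (M1 t) 1 = dl + u • U0 dl + U0 (F (M1 t) 1) + t • U1 (F (M1 t) 1) + U2 (F (M1 t) 1)
      + (u * u) • U2 (U0 (U1 (F (M1 t) 1))) := by
  have E0 := F_eq (M1 t) 0
  have E1 := F_eq (M1 t) 1
  have E2 := F_eq (M1 t) 2
  set f0 := F (M1 t) 0 with hf0
  set f1 := F (M1 t) 1 with hf1
  set f2 := F (M1 t) 2 with hf2
  have m00 : M1 t 0 0 = 1 := by simp [M1]
  have m10 : M1 t 1 0 = 1 := by simp [M1]
  have m20 : M1 t 2 0 = 1 := by simp [M1]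
  have m01 : M1 t 0 1 = t := by simp [M1]
  have m11 : M1 t 1 1 = t := by simp [M1]
  have m21 : M1 t 2 1 = 1 := by simp [M1]
  have m02 : M1 t 0 2 = 1 := by simp [M1]
  have m12 : M1 t 1 2 = t := by simp [M1]
  have m22 : M1 t 2 2 = 1 := by simp [M1]
  rw [m00, m10, m20, one_smul, one_smul, one_smul] at E0
  rw [m01, m11, m21, one_smul] at E1
  rw [m02, m12, m22, one_smul, one_smul] at E2
  have hG : f0 + u • U0 f0 = f1 - u • U1 f1 := by
    subst htu
    linear_combination (norm := module) E0 - E1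
  have hf2' : f2 = f1 - u • U0 f0 := by
    subst htu
    linear_combination (norm := module) E2 - E1
  rw [hf2'] at E1
  have h1 := congrArg U0 E1
  have h2 := congrArg U0 hG
  have h3 := congrArg U2 h2
  simp only [map_add, map_sub, map_smul, U0_U2] at h1 h2 h3 E1
  subst htu
  linear_combination (norm := module) E1 + u • h1 + (1 + u) • h2 - u • h3

/-- `P_r = 1 + u U_r` -/
def P0 (u : R) (f : ℕ → ℕ → ℕ → R) : ℕ → ℕ → ℕ → R := f + u • U0 f
/-- `P_r = 1 + u U_r` -/
def P1 (u : R) (f : ℕ → ℕ → ℕ → R) : ℕ → ℕ → ℕ → R := f + u • U1 f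
/-- `P_r = 1 + u U_r` -/
def P2 (u : R) (f : ℕ → ℕ → ℕ → R) : ℕ → ℕ → ℕ → R := f + u • U2 f

lemma asc_eq (u t : R) (htu : t = 1 + u) :
    P0 u (P1 u (P2 u (F (M2 t) 2))) = t • F (M2 t) 2 - u • dl := by
  have E0 := F_eq (M2 t) 0
  have E1 := F_eq (M2 t) 1
  have E2 := F_eq (M2 t) 2
  set f0 := F (M2 t) 0 with hf0
  set f1 := F (M2 t) 1 with hf1
  set f2 := F (M2 t) 2 with hf2
  have m00 : M2 t 0 0 = 1 := by simp [M2]
  have m10 : M2 t 1 0 = t := by simp [M2]
  have m20 : M2 t 2 0 = t := by simp [M2]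
  have m01 : M2 t 0 1 = 1 := by simp [M2]
  have m11 : M2 t 1 1 = 1 := by simp [M2]
  have m21 : M2 t 2 1 = t := by simp [M2]
  have m02 : M2 t 0 2 = 1 := by simp [M2]
  have m12 : M2 t 1 2 = 1 := by simp [M2]
  have m22 : M2 t 2 2 = 1 := by simp [M2]
  rw [m00, m10, m20, one_smul] at E0
  rw [m01, m11, m21, one_smul, one_smul] at E1
  rw [m02, m12, m22, one_smul, one_smul, one_smul] at E2
  have h1 : P2 u f2 = f1 := by
    unfold P2
    subst htu
    linear_combination (norm := module) E2 - E1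
  have h2 : P1 u f1 = f0 := by
    unfold P1
    subst htu
    linear_combination (norm := module) E1 - E0
  rw [h1, h2]
  unfold P0
  subst htu
  linear_combination (norm := module) E0 - (1 + u) • E2

/-- the transform of the ascent vector -/
noncomputable def xv (u t : R) : ℕ → ℕ → ℕ → R := P2 u (P1 u (P2 u (F (M2 t) 2)))

lemma P0_P2 (u : R) (f : ℕ → ℕ → ℕ → R) : P0 u (P2 u f) = P2 u (P0 u f) := by
  unfold P0 P2
  simp only [map_add, map_smul, U0_U2]
  module

lemma P1_dl (u : R) : P1 u dl = dl := by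
  unfold P1; rw [U1_dl, smul_zero, add_zero]

lemma P2_dl (u : R) : P2 u dl = dl := by
  unfold P2; rw [U2_dl, smul_zero, add_zero]

lemma P0_sub_smul (u : R) (a b : R) (f g : ℕ → ℕ → ℕ → R) :
    P0 u (a • f - b • g) = a • P0 u f - b • P0 u g := by
  unfold P0; simp only [map_sub, map_smul]; module

lemma P1_sub_smul (u : R) (a b : R) (f g : ℕ → ℕ → ℕ → R) :
    P1 u (a • f - b • g) = a • P1 u f - b • P1 u g := by
  unfold P1; simp only [map_sub, map_smul]; module

lemma P2_sub_smul (u : R) (a b : R) (f g : ℕ → ℕ → ℕ → R) :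
    P2 u (a • f - b • g) = a • P2 u f - b • P2 u g := by
  unfold P2; simp only [map_sub, map_smul]; module

lemma P0_xv (u t : R) (htu : t = 1 + u) :
    P0 u (xv u t) = t • P2 u (F (M2 t) 2) - u • dl := by
  unfold xv
  rw [P0_P2, asc_eq u t htu, P2_sub_smul, P2_dl]

lemma xv_eq (u t : R) (htu : t = 1 + u) :
    P2 u (P1 u (P0 u (xv u t))) = t • xv u t - u • dl := by
  rw [P0_xv u t htu, P1_sub_smul, P2_sub_smul, P1_dl, P2_dl]
  rfl

lemma P0_diag (u : R) (f : ℕ → ℕ → ℕ → R) (n : ℕ) : P0 u f n n n = f n n n := by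
  unfold P0; simp [U0_diag]

lemma P1_diag (u : R) (f : ℕ → ℕ → ℕ → R) (n : ℕ) : P1 u f n n n = f n n n := by
  unfold P1; simp [U1_diag]

/-- `des - 2` and `asc` -/
lemma xv_diag (u t : R) (htu : t = 1 + u) {n : ℕ} (hn : 1 ≤ n) :
    xv u t n n n = t * (t * F (M2 t) 2 n n n) := by
  have h1 := congrFun (congrFun (congrFun (P0_xv u t htu) n) n) n
  rw [P0_diag] at h1
  have h2 := congrFun (congrFun (congrFun (asc_eq u t htu) n) n) n
  rw [P0_diag, P1_diag] at h2
  simp only [Pi.sub_apply, Pi.smul_apply, smul_eq_mul, dl_pos hn, mul_zero, sub_zero] at h1 h2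
  rw [h1, h2]

lemma P_expand (u : R) (f : ℕ → ℕ → ℕ → R) : P2 u (P1 u (P0 u f)) = f + u • (U0 f + U1 f + U2 f)
      + (u * u) • (U1 (U0 f) + U2 (U0 f) + U2 (U1 f)) + (u * u * u) • U2 (U1 (U0 f)) := by
  unfold P0 P1 P2
  simp only [map_add, map_smul]
  module

/-- vanishing below degree `N` -/
def vb (f : ℕ → ℕ → ℕ → R) (N : ℕ) : Prop := ∀ a b c, a + b + c < N → f a b c = 0

lemma vb_U0 {f : ℕ → ℕ → ℕ → R} {N : ℕ} (h : vb f N) : vb (U0 f) (N + 1) := by
  intro a b c habc
  rw [U0_apply]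
  by_cases h1 : c ≤ b ∧ b < a
  · rw [if_pos h1, h _ _ _ (by omega)]
  · rw [if_neg h1]

lemma vb_U1 {f : ℕ → ℕ → ℕ → R} {N : ℕ} (h : vb f N) : vb (U1 f) (N + 1) := by
  intro a b c habc
  rw [U1_apply]
  by_cases h1 : c < b ∧ b ≤ a
  · rw [if_pos h1, h _ _ _ (by omega)]
  · rw [if_neg h1]

lemma vb_U2 {f : ℕ → ℕ → ℕ → R} {N : ℕ} (h : vb f N) : vb (U2 f) (N + 1) := by
  intro a b c habc
  rw [U2_apply]
  by_cases h1 : 0 < c ∧ c ≤ b ∧ b ≤ a
  · rw [if_pos h1, h _ _ _ (by omega)]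
  · rw [if_neg h1]

lemma vb_mono {f : ℕ → ℕ → ℕ → R} {N K : ℕ} (h : vb f N) (hK : K ≤ N) : vb f K :=
  fun a b c habc => h a b c (lt_of_lt_of_le habc hK)

/-- uniqueness for the descent recursion -/
lemma uniq_des (u t : R) (htu : t = 1 + u) (hu : ∀ r : R, u * r = 0 → r = 0)
    (f g : ℕ → ℕ → ℕ → R) (hf : P2 u (P1 u (P0 u f)) = t • f - u • dl)
    (hg : P2 u (P1 u (P0 u g)) = t • g - u • dl) : f = g := by
  have hd : P2 u (P1 u (P0 u (f - g))) = t • (f - g) := by
    have := P0_sub_smul u 1 1 f g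
    rw [one_smul, one_smul, one_smul, one_smul] at this
    rw [this]
    have := P1_sub_smul u 1 1 (P0 u f) (P0 u g)
    rw [one_smul, one_smul, one_smul, one_smul] at this
    rw [this]
    have := P2_sub_smul u 1 1 (P1 u (P0 u f)) (P1 u (P0 u g))
    rw [one_smul, one_smul, one_smul, one_smul] at this
    rw [this, hf, hg]
    module
  set d := f - g with hdd
  have key : u • d = u • (U0 d + U1 d + U2 d + u • (U1 (U0 d) + U2 (U0 d) + U2 (U1 d))
      + (u * u) • U2 (U1 (U0 d))) := by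
    unfold P0 P1 P2 at hd
    simp only [map_add, map_smul] at hd
    subst htu
    linear_combination (norm := module) -hd
  have hvb : ∀ N, vb d N := by
    intro N
    induction N with
    | zero => intro a b c h; omega
    | succ N ih =>
      intro a b c habc
      have h1 := congrFun (congrFun (congrFun key a) b) c
      simp only [Pi.add_apply, Pi.smul_apply, smul_eq_mul] at h1
      rw [vb_U0 ih a b c habc, vb_U1 ih a b c habc, vb_U2 ih a b c habc,
        vb_U1 (vb_U0 ih) a b c (by omega), vb_U2 (vb_U0 ih) a b c (by omega),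
        vb_U2 (vb_U1 ih) a b c (by omega), vb_U2 (vb_U1 (vb_U0 ih)) a b c (by omega)] at h1
      apply hu
      rw [h1]
      ring
  have hd0 : d = 0 := by
    funext a b c
    exact hvb (a + b + c + 1) a b c (by omega)
  rw [hdd] at hd0
  exact sub_eq_zero.mp hd0

/-- uniqueness for the tandem recursion -/
lemma uniq_st (u t : R) (e : ℕ → ℕ → ℕ → R)
    (f g : ℕ → ℕ → ℕ → R)
    (hf : f = e + U0 f + t • U1 f + U2 f + (u * u) • U2 (U0 (U1 f)))
    (hg : g = e + U0 g + t • U1 g + U2 g + (u * u) • U2 (U0 (U1 g))) : f = g := by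
  set d := f - g with hdd
  have key : d = U0 d + t • U1 d + U2 d + (u * u) • U2 (U0 (U1 d)) := by
    rw [hdd]
    simp only [map_sub]
    linear_combination (norm := module) hf - hg
  have hvb : ∀ N, vb d N := by
    intro N
    induction N with
    | zero => intro a b c h; omega
    | succ N ih =>
      intro a b c habc
      have h1 := congrFun (congrFun (congrFun key a) b) c
      simp only [Pi.add_apply, Pi.smul_apply, smul_eq_mul] at h1
      rw [vb_U0 ih a b c habc, vb_U1 ih a b c habc, vb_U2 ih a b c habc,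
        vb_U2 (vb_U0 (vb_U1 ih)) a b c (by omega)] at h1
      rw [h1]
      ring
  have hd0 : d = 0 := by
    funext a b c
    exact hvb (a + b + c + 1) a b c (by omega)
  rw [hdd] at hd0
  exact sub_eq_zero.mp hd0

end Pool.Agent.H62.Sulanke
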