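import Mathlib
import Pool.Agent.H62.Sulanke.Closed

set_option autoImplicit false

namespace Pool.Agent.H62.Sulanke

open Finset

/-- rising factorial -/
def Poch (n : ℕ) (z : ℚ) : ℚ := ∏ j ∈ range n, (z + j)

lemma Poch_zero (z : ℚ) : Poch 0 z = 1 := by simp [Poch]

lemma Poch_succ (n : ℕ) (z : ℚ) : Poch (n + 1) z = Poch n z * (z + n) := by
  simp [Poch, prod_range_succ]

lemma Poch_succ' (n : ℕ) (z : ℚ) : Poch (n + 1) z = z * Poch n (z + 1) := by
  unfold Poch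
  rw [prod_range_succ', mul_comm]
  congr 1
  · simp
  · apply prod_congr rfl
    intro j _
    push_cast
    ring

/-- number of column strict fillings, closed form -/
def Sq (k : ℚ) (a b c : ℕ) : ℚ :=
  ((a : ℚ) - b + 1) * ((a : ℚ) - c + 2) * ((b : ℚ) - c + 1) * Poch a k * Poch b (k - 1) *
    Poch c (k - 2) / (((a + 2).factorial : ℚ) * ((b + 1).factorial : ℚ) * (c.factorial : ℚ))

lemma fac3 (a : ℕ) : ((a + 1 + 2).factorial : ℚ) = (a + 3) * ((a + 2).factorial : ℚ) := by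
  rw [show a + 1 + 2 = (a + 2) + 1 by ring, Nat.factorial_succ]; push_cast; ring

lemma fac2 (a : ℕ) : ((a + 1 + 1).factorial : ℚ) = (a + 2) * ((a + 1).factorial : ℚ) := by
  rw [Nat.factorial_succ (a + 1)]; push_cast; ring

lemma fac1 (a : ℕ) : ((a + 1).factorial : ℚ) = (a + 1) * ((a).factorial : ℚ) := by
  rw [Nat.factorial_succ (a)]; push_cast; ring

lemma Sq_id8 (k : ℚ) (a b c : ℕ) :
    Sq (k + 1) (a + 1) (b + 1) (c + 1) - Sq (k + 1) a (b + 1) (c + 1) - Sq (k + 1) (a + 1) b (c + 1)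
      - Sq (k + 1) (a + 1) (b + 1) c + Sq (k + 1) a b (c + 1) + Sq (k + 1) a (b + 1) c
      + Sq (k + 1) (a + 1) b c - Sq (k + 1) a b c = Sq k (a + 1) (b + 1) (c + 1) := by
  unfold Sq
  have e1 : k + 1 - 1 = k := by ring
  have e2 : k + 1 - 2 = k - 1 := by ring
  have e3 : k - 1 + 1 = k := by ring
  have e4 : k - 2 + 1 = k - 1 := by ring
  rw [e1, e2, Poch_succ' a k, Poch_succ' b (k - 1), Poch_succ' c (k - 2), e3, e4,
    Poch_succ a, Poch_succ b, Poch_succ c, fac3 a, fac2 b, fac1 c]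
  push_cast
  field_simp
  ring

lemma Sq_id4 (k : ℚ) (a b : ℕ) :
    Sq (k + 1) (a + 1) (b + 1) 0 - Sq (k + 1) a (b + 1) 0 - Sq (k + 1) (a + 1) b 0
      + Sq (k + 1) a b 0 = Sq k (a + 1) (b + 1) 0 := by
  unfold Sq
  have e1 : k + 1 - 1 = k := by ring
  have e2 : k + 1 - 2 = k - 1 := by ring
  have e3 : k - 1 + 1 = k := by ring
  rw [e1, e2, Poch_succ' a k, Poch_succ' b (k - 1), e3,
    Poch_succ a, Poch_succ b, Poch_zero, Poch_zero, fac3 a, fac2 b]
  push_cast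
  field_simp
  ring

lemma Sq_id2 (k : ℚ) (a : ℕ) :
    Sq (k + 1) (a + 1) 0 0 - Sq (k + 1) a 0 0 = Sq k (a + 1) 0 0 := by
  unfold Sq
  rw [Poch_succ' a k, Poch_succ a, Poch_zero, Poch_zero, Poch_zero, Poch_zero, fac3 a]
  push_cast
  field_simp
  ring

lemma Sq_000 (k : ℚ) : Sq k 0 0 0 = 1 := by
  unfold Sq
  rw [Poch_zero, Poch_zero, Poch_zero]
  norm_num [Nat.factorial]

lemma Sq_zero_left (a b c : ℕ) : Sq 0 (a + 1) b c = 0 := by
  unfold Sq
  rw [Poch_succ']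
  simp

/-- vanishing at the boundary -/
lemma Sq_b1 (k : ℚ) (a c : ℕ) : Sq k a (a + 1) c = 0 := by
  unfold Sq
  push_cast
  ring

lemma Sq_b2 (k : ℚ) (a b : ℕ) : Sq k a b (b + 1) = 0 := by
  unfold Sq
  push_cast
  ring

end Pool.Agent.H62.Sulanke
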