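import Mathlib
import Pool.Agent.H62.Sulanke.Ssum

set_option autoImplicit false

namespace Pool.Agent.H62.Sulanke

open Finset

lemma choose_step (N r : ℕ) :
    ((N.choose (r + 1) : ℕ) : ℚ) * (r + 1) = (N.choose r : ℚ) * ((N : ℚ) - r) := by
  have h := Nat.choose_succ_right_eq N r
  rcases Nat.lt_or_ge N r with h1 | h1
  · rw [Nat.choose_eq_zero_of_lt h1, Nat.choose_eq_zero_of_lt (by omega)]
    simp
  · have h2 : ((N.choose (r + 1) * (r + 1) : ℕ) : ℚ) = ((N.choose r * (N - r) : ℕ) : ℚ) := by rw [h]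
    push_cast [Nat.cast_sub h1] at h2
    exact h2

lemma choose_up (N r : ℕ) :
    (((N + 1).choose (r + 1) : ℕ) : ℚ) * (r + 1) = (N.choose r : ℚ) * ((N : ℚ) + 1) := by
  have h := Nat.add_one_mul_choose_eq N r
  have h2 : (((N + 1) * N.choose r : ℕ) : ℚ) = (((N + 1).choose (r + 1) * (r + 1) : ℕ) : ℚ) := by rw [h]
  push_cast at h2
  linarith

/-- summand, `b` stands for `b - 1` -/
def Fq (n k b : ℕ) : ℚ := cnb n (b + 1) * ((k + n + b).choose (n + 2 * b + 2) : ℚ)

/-- certificate -/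
def Gq (n k b : ℕ) : ℚ := -(2 * (k : ℚ) + n) * (b * (b + 1) * (b + 2)) * 2 * ((n - 1).choose b : ℚ)
  * ((n + 2 * b + 1).factorial : ℚ) /
    (((b + 1).factorial : ℚ) * ((b + 2).factorial : ℚ) * ((n + 2).factorial : ℚ))
  * ((k + n + b).choose (n + 2 * b + 1) : ℚ)

lemma wz (n k b : ℕ) (hn : 1 ≤ n) :
    ((k : ℚ) + 1) * k * (k - 1) * Fq n (k + 1) b
      - ((k : ℚ) + n + 1) * (k + n) * (k + n - 1) * Fq n k b = Gq n k (b + 1) - Gq n k b := by
  have c1 := choose_step (k + n + b) (n + 2 * b + 1)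
  have c2 := choose_up (k + n + b) (n + 2 * b + 1)
  have c3 := choose_up (k + n + b) (n + 2 * b + 2)
  have c4 := choose_step (n - 1) b
  have hn1 : ((n - 1 : ℕ) : ℚ) = (n : ℚ) - 1 := by
    rw [Nat.cast_sub hn]; simp
  rw [hn1] at c4
  have r1 : (((k + n + b).choose (n + 2 * b + 2) : ℕ) : ℚ) =
      ((k + n + b).choose (n + 2 * b + 1) : ℚ) * ((k : ℚ) - b - 1) / ((n : ℚ) + 2 * b + 2) := by
    rw [eq_div_iff (by positivity)]
    push_cast at c1
    linear_combination c1
  have r2 : (((k + n + b + 1).choose (n + 2 * b + 2) : ℕ) : ℚ) =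
      ((k + n + b).choose (n + 2 * b + 1) : ℚ) * ((k : ℚ) + n + b + 1) / ((n : ℚ) + 2 * b + 2) := by
    rw [eq_div_iff (by positivity)]
    push_cast at c2
    linear_combination c2
  have r3 : (((k + n + b + 1).choose (n + 2 * b + 3) : ℕ) : ℚ) =
      ((k + n + b).choose (n + 2 * b + 2) : ℚ) * ((k : ℚ) + n + b + 1) / ((n : ℚ) + 2 * b + 3) := by
    rw [eq_div_iff (by positivity)]
    push_cast at c3
    linear_combination c3
  have r4 : (((n - 1).choose (b + 1) : ℕ) : ℚ) =
      ((n - 1).choose b : ℚ) * ((n : ℚ) - 1 - b) / ((b : ℚ) + 1) := by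
    rw [eq_div_iff (by positivity)]
    linear_combination c4
  unfold Fq Gq cnb
  rw [show k + 1 + n + b = k + n + b + 1 by ring, show k + n + (b + 1) = k + n + b + 1 by ring,
    show n + 2 * (b + 1) + 1 = n + 2 * b + 3 by ring, show b + 1 + 2 = b + 3 by ring,
    show n + 2 * (b + 1) = n + 2 * b + 2 by ring, show b + 1 + 1 = b + 2 by ring,
    show b + 1 - 1 = b by omega, r3, r2, r1, r4]
  have f1 : ((n + 2 * b + 2).factorial : ℚ) = (n + 2 * b + 2) * ((n + 2 * b + 1).factorial : ℚ) := by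
    rw [Nat.factorial_succ]; push_cast; ring
  have f2 : ((n + 2 * b + 3).factorial : ℚ) =
      (n + 2 * b + 3) * ((n + 2 * b + 2) * ((n + 2 * b + 1).factorial : ℚ)) := by
    rw [Nat.factorial_succ, Nat.factorial_succ]; push_cast; ring
  have f3 : ((b + 2).factorial : ℚ) = (b + 2) * ((b + 1).factorial : ℚ) := by
    rw [Nat.factorial_succ]; push_cast; ring
  have f4 : ((b + 3).factorial : ℚ) = (b + 3) * ((b + 2) * ((b + 1).factorial : ℚ)) := by
    rw [Nat.factorial_succ, Nat.factorial_succ]; push_cast; ring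
  rw [f1, f2, f3, f4]
  generalize (((k + n + b).choose (n + 2 * b + 1) : ℕ) : ℚ) = x
  generalize (((n - 1).choose b : ℕ) : ℚ) = y
  have p1 : ((b + 1).factorial : ℚ) ≠ 0 := by positivity
  have p2 : ((n + 2).factorial : ℚ) ≠ 0 := by positivity
  generalize ((b + 1).factorial : ℚ) = z at *
  generalize ((n + 2).factorial : ℚ) = w at *
  generalize ((n + 2 * b + 1).factorial : ℚ) = v at *
  push_cast
  have q1 : (n : ℚ) + 2 * b + 2 ≠ 0 := by positivity
  have q2 : (n : ℚ) + 2 * b + 3 ≠ 0 := by positivity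
  have q3 : (b : ℚ) + 1 ≠ 0 := by positivity
  have q4 : (b : ℚ) + 2 ≠ 0 := by positivity
  have q5 : (b : ℚ) + 3 ≠ 0 := by positivity
  field_simp
  ring

lemma Sq_step (n : ℕ) (k : ℚ) :
    (k + 1) * k * (k - 1) * Sq (k + 1 + 1) n n n = (k + n + 1) * (k + n) * (k + n - 1) * Sq (k + 1) n n n := by
  have h : ∀ z : ℚ, z * Poch n (z + 1) = Poch n z * (z + n) := by
    intro z; rw [← Poch_succ', Poch_succ]
  have h1 := h (k + 1)
  have h2 := h k
  have h3 := h (k - 1)
  rw [show k - 1 + 1 = k by ring] at h3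
  unfold Sq
  rw [show k + 1 + 1 - 1 = k + 1 by ring, show k + 1 + 1 - 2 = k by ring,
    show k + 1 - 1 = k by ring, show k + 1 - 2 = k - 1 by ring]
  have h4 : ((k + 1) * Poch n (k + 1 + 1)) * (k * Poch n (k + 1)) * ((k - 1) * Poch n k) =
    (Poch n (k + 1) * (k + 1 + n)) * (Poch n k * (k + n)) * (Poch n (k - 1) * (k - 1 + n)) := by
    rw [h1, h2, h3]
  rw [mul_div_assoc', mul_div_assoc']
  congr 1
  linear_combination (((n : ℚ) - n + 1) * ((n : ℚ) - n + 2) * ((n : ℚ) - n + 1)) * h4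

lemma Poch_one (n : ℕ) : Poch n 1 = (n.factorial : ℚ) := by
  induction n with
  | zero => simp [Poch_zero]
  | succ n ih => rw [Poch_succ, ih, Nat.factorial_succ]; push_cast; ring

lemma Poch_two (n : ℕ) : Poch n 2 = ((n + 1).factorial : ℚ) := by
  have := Poch_succ' n 1
  rw [Poch_one] at this
  rw [this]; norm_num

lemma Poch_three (n : ℕ) : 2 * Poch n 3 = ((n + 2).factorial : ℚ) := by
  have := Poch_succ' n 2
  rw [Poch_two] at this
  rw [show n + 1 + 1 = n + 2 by ring] at this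
  rw [this]; norm_num

lemma Poch_z (n : ℕ) (hn : 1 ≤ n) : Poch n 0 = 0 := by
  obtain ⟨m, rfl⟩ : ∃ m, n = m + 1 := ⟨n - 1, by omega⟩
  rw [Poch_succ', zero_mul]

lemma saal (n : ℕ) (hn : 1 ≤ n) (k : ℕ) :
    ∑ b ∈ range n, Fq n k b = Sq ((k : ℚ) + 1) n n n := by
  rcases Nat.lt_or_ge k 2 with hk | hk
  · have h1 : ∑ b ∈ range n, Fq n k b = 0 := by
      apply sum_eq_zero
      intro b _
      unfold Fq
      rw [Nat.choose_eq_zero_of_lt (by omega)]
      simp
    rw [h1]
    unfold Sq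
    have h2 : k = 0 ∨ k = 1 := by omega
    rcases h2 with rfl | rfl
    · have : ((0 : ℕ) : ℚ) + 1 - 1 = 0 := by norm_num
      rw [this, Poch_z n hn]
      simp
    · have : ((1 : ℕ) : ℚ) + 1 - 2 = 0 := by norm_num
      rw [this, Poch_z n hn]
      simp
  · induction k, hk using Nat.le_induction with
    | base =>
      rw [sum_eq_single 0]
      · unfold Fq cnb Sq
        rw [show (2 : ℕ) + n + 0 = n + 2 * 0 + 2 by ring, Nat.choose_self]
        have e1 : ((2 : ℕ) : ℚ) + 1 - 1 = 2 := by norm_num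
        have e2 : ((2 : ℕ) : ℚ) + 1 - 2 = 1 := by norm_num
        have e3 : ((2 : ℕ) : ℚ) + 1 = 3 := by norm_num
        rw [e1, e2, e3, Poch_one, Poch_two]
        have h3 := Poch_three n
        have : Poch n 3 = ((n + 2).factorial : ℚ) / 2 := by linarith
        rw [this]
        rw [show n + 2 * (0 + 1) = n + 2 by ring]
        simp
        field_simp
      · intro b _ hb
        unfold Fq
        rw [Nat.choose_eq_zero_of_lt (by omega)]
        simp
      · intro h
        exact absurd (mem_range.mpr hn) h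
    | succ k hk ih =>
      have hsum : ((k : ℚ) + 1) * k * (k - 1) * ∑ b ∈ range n, Fq n (k + 1) b
          - ((k : ℚ) + n + 1) * (k + n) * (k + n - 1) * ∑ b ∈ range n, Fq n k b = 0 := by
        rw [mul_sum, mul_sum, ← sum_sub_distrib]
        rw [sum_congr rfl (fun b _ => wz n k b hn)]
        rw [sum_range_sub (fun b => Gq n k b)]
        have g0 : Gq n k 0 = 0 := by unfold Gq; simp
        have gn : Gq n k n = 0 := by
          unfold Gq
          rw [Nat.choose_eq_zero_of_lt (show n - 1 < n by omega)]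
          simp
        rw [g0, gn]
        ring
      rw [ih] at hsum
      have hS := Sq_step n k
      have hk0 : ((k : ℚ) + 1) * k * (k - 1) ≠ 0 := by
        have : (2 : ℚ) ≤ k := by exact_mod_cast hk
        have h1 : (k : ℚ) + 1 ≠ 0 := by linarith
        have h2 : (k : ℚ) ≠ 0 := by linarith
        have h3 : (k : ℚ) - 1 ≠ 0 := by linarith
        positivity
      apply mul_left_cancel₀ hk0
      push_cast
      linarith

end Pool.Agent.H62.Sulanke
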