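import Mathlib
import Pool.Agent.H62.Sulanke.Ops
import Pool.Agent.H62.Sulanke.Closed

set_option autoImplicit false

namespace Pool.Agent.H62.Sulanke

open Finset

variable {R : Type*} [CommRing R] [Algebra ℚ R]

/-- closed form for the tandem recursion -/
noncomputable def W (t w : R) : ℕ → ℕ → ℕ → R := fun a b c =>
  if c ≤ b ∧ b ≤ a then
    ∑ m ∈ range (c + 1), algebraMap ℚ R (Vq m (a - m) (b - m) (c - m)) * t ^ (b - m) * w ^ m
  else 0

lemma W_pos (t w : R) {a b c : ℕ} (h : c ≤ b ∧ b ≤ a) : W t w a b c =
    ∑ m ∈ range (c + 1), algebraMap ℚ R (Vq m (a - m) (b - m) (c - m)) * t ^ (b - m) * w ^ m := by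
  unfold W; rw [if_pos h]

lemma W_neg (t w : R) {a b c : ℕ} (h : ¬ (c ≤ b ∧ b ≤ a)) : W t w a b c = 0 := by
  unfold W; rw [if_neg h]

lemma W_rec (t w : R) :
    W t w = dl + U0 (W t w) + t • U1 (W t w) + U2 (W t w) + w • U2 (U0 (U1 (W t w))) := by
  funext a b c
  simp only [Pi.add_apply, Pi.smul_apply, smul_eq_mul]
  by_cases hp : c ≤ b ∧ b ≤ a
  · by_cases h0 : a = 0
    · have hb : b = 0 := by omega
      have hc : c = 0 := by omega
      subst h0 hb hc
      rw [W_pos t w hp]
      simp [U0_apply, U1_apply, U2_apply, dl, Vq]
    · have hd : (dl : ℕ → ℕ → ℕ → R) a b c = 0 := by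
        unfold dl; rw [if_neg (by omega)]
      rw [hd, zero_add]
      have T0 : U0 (W t w) a b c = ∑ m ∈ range (c + 1),
          algebraMap ℚ R (if b - m < a - m then Vq m (a - m - 1) (b - m) (c - m) else 0)
            * t ^ (b - m) * w ^ m := by
        rw [U0_apply]
        by_cases h : b < a
        · rw [if_pos ⟨hp.1, h⟩, W_pos t w (by omega)]
          apply sum_congr rfl
          intro m hm
          rw [mem_range] at hm
          rw [if_pos (by omega), show a - 1 - m = a - m - 1 by omega]
        · rw [if_neg (by omega)]
          symm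
          apply sum_eq_zero
          intro m hm
          rw [if_neg (by omega), map_zero, zero_mul, zero_mul]
      have T1 : t * U1 (W t w) a b c = ∑ m ∈ range (c + 1),
          algebraMap ℚ R (if c - m < b - m then Vq m (a - m) (b - m - 1) (c - m) else 0)
            * t ^ (b - m) * w ^ m := by
        rw [U1_apply]
        by_cases h : c < b
        · rw [if_pos ⟨h, hp.2⟩, W_pos t w (by omega), mul_sum]
          apply sum_congr rfl
          intro m hm
          rw [mem_range] at hm
          rw [if_pos (by omega), show b - 1 - m = b - m - 1 by omega]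
          obtain ⟨e, he⟩ : ∃ e, b - m = e + 1 := ⟨b - m - 1, by omega⟩
          rw [he, show e + 1 - 1 = e by omega, pow_succ]
          ring
        · rw [if_neg (by omega), mul_zero]
          symm
          apply sum_eq_zero
          intro m hm
          rw [if_neg (by omega), map_zero, zero_mul, zero_mul]
      have T2 : U2 (W t w) a b c = ∑ m ∈ range (c + 1),
          algebraMap ℚ R (if 0 < c - m then Vq m (a - m) (b - m) (c - m - 1) else 0)
            * t ^ (b - m) * w ^ m := by
        rw [U2_apply, sum_range_succ, if_neg (by omega : ¬ 0 < c - c), map_zero, zero_mul, zero_mul,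
          add_zero]
        by_cases h : 0 < c
        · rw [if_pos ⟨h, hp⟩, W_pos t w (by omega), show c - 1 + 1 = c by omega]
          apply sum_congr rfl
          intro m hm
          rw [mem_range] at hm
          rw [if_pos (by omega), show c - 1 - m = c - m - 1 by omega]
        · rw [if_neg (by omega)]
          have : c = 0 := by omega
          subst this
          simp
      have T3 : w * U2 (U0 (U1 (W t w))) a b c = ∑ m ∈ range (c + 1),
          algebraMap ℚ R (if b - m < a - m ∧ 0 < m then Vq (m - 1) (a - m) (b - m) (c - m) else 0)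
            * t ^ (b - m) * w ^ m := by
        rw [sum_range_succ', if_neg (by omega : ¬ (b - 0 < a - 0 ∧ 0 < 0)), map_zero, zero_mul,
          zero_mul, add_zero]
        simp only [U0_apply, U1_apply, U2_apply]
        by_cases h : 0 < c ∧ b < a
        · rw [if_pos ⟨h.1, hp⟩, if_pos (by omega), if_pos (by omega), W_pos t w (by omega),
            show c - 1 + 1 = c by omega, mul_sum]
          apply sum_congr rfl
          intro m hm
          rw [mem_range] at hm
          rw [if_pos (by omega), show m + 1 - 1 = m by omega, show a - 1 - m = a - (m + 1) by omega,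
            show b - 1 - m = b - (m + 1) by omega, show c - 1 - m = c - (m + 1) by omega, pow_succ]
          ring
        · have h3 : ∀ m ∈ range c, algebraMap ℚ R (if b - (m + 1) < a - (m + 1) ∧ 0 < m + 1 then
              Vq (m + 1 - 1) (a - (m + 1)) (b - (m + 1)) (c - (m + 1)) else 0)
            * t ^ (b - (m + 1)) * w ^ (m + 1) = 0 := by
            intro m hm
            rw [mem_range] at hm
            rw [if_neg (by omega), map_zero, zero_mul, zero_mul]
          rw [sum_eq_zero h3]
          by_cases h4 : 0 < c
          · rw [if_pos ⟨h4, hp⟩, if_neg (by omega), mul_zero]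
          · rw [if_neg (by omega), mul_zero]
      rw [T0, T1, T2, T3, W_pos t w hp, ← sum_add_distrib, ← sum_add_distrib, ← sum_add_distrib]
      apply sum_congr rfl
      intro m hm
      rw [mem_range] at hm
      rw [Vq_rec m (a - m) (b - m) (c - m) (by omega) (by omega) (by omega)]
      simp only [map_add]
      ring
  · rw [W_neg t w hp]
    have hd : (dl : ℕ → ℕ → ℕ → R) a b c = 0 := by
      unfold dl; rw [if_neg (by omega)]
    rw [hd, U0_apply, U1_apply, U2_apply, U2_apply, if_neg (by omega), if_neg (by omega),
      if_neg (by omega), if_neg (by omega)]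
    ring

lemma F1_eq (u t : R) (htu : t = 1 + u) : F (M1 t) 1 = t • W t (u * u) - u • dl := by
  apply uniq_st u t (dl + u • U0 dl)
  · exact st_eq u t htu
  · have h := W_rec t (u * u)
    set w := W t (u * u)
    simp only [map_sub, map_smul, U1_dl, U2_dl, map_zero, smul_zero, sub_zero]
    subst htu
    linear_combination (norm := module) (1 + u) • h

/-- total weight for the statistic `b₁₂ + b₂₂ + b₂₃` at the rectangle. -/
lemma st_total (u t : R) (htu : t = 1 + u) {n : ℕ} (hn : 1 ≤ n) :
    F (M1 t) 0 n n n = t * W t (u * u) n n n := by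
  have E0 := F_eq (M1 t) 0
  have E1 := F_eq (M1 t) 1
  have h1 : F (M1 t) 0 n n n = F (M1 t) 1 n n n := by
    rw [E0, E1]
    simp only [Pi.add_apply, Pi.smul_apply, smul_eq_mul, U0_diag, U1_diag, mul_zero]
    simp [M1]
  rw [h1, F1_eq u t htu]
  simp only [Pi.sub_apply, Pi.smul_apply, smul_eq_mul, dl_pos hn, mul_zero, sub_zero]

end Pool.Agent.H62.Sulanke
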