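import Mathlib
import Pool.Agent.H62.Sulanke.Ops
import Pool.Agent.H62.Sulanke.Saal
import Pool.Agent.H62.Sulanke.Wsum

set_option autoImplicit false

namespace Pool.Agent.H62.Sulanke

open Finset PowerSeries

/-- generating series of `Sq` -/
noncomputable def sS (a b c : ℕ) : ℚ⟦X⟧ := PowerSeries.mk fun k => Sq ((k : ℚ) + 1) a b c

/-- unconditional closed form -/
noncomputable def gS (a b c : ℕ) : ℚ⟦X⟧ := (1 - X) ^ (a + b + c + 1) * sS a b c

/-- closed form for the descent vector -/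
noncomputable def Xc : ℕ → ℕ → ℕ → ℚ⟦X⟧ := fun a b c => if c ≤ b ∧ b ≤ a then gS a b c else 0

lemma Xc_pos {a b c : ℕ} (h : c ≤ b ∧ b ≤ a) : Xc a b c = gS a b c := by
  unfold Xc; rw [if_pos h]

lemma Xc_neg {a b c : ℕ} (h : ¬ (c ≤ b ∧ b ≤ a)) : Xc a b c = 0 := by
  unfold Xc; rw [if_neg h]

lemma gS_b1 (a c : ℕ) : gS a (a + 1) c = 0 := by
  unfold gS sS
  have : (PowerSeries.mk fun k => Sq ((k : ℚ) + 1) a (a + 1) c) = 0 := by
    ext k; simp [Sq_b1]
  rw [this, mul_zero]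

lemma gS_b2 (a b : ℕ) : gS a b (b + 1) = 0 := by
  unfold gS sS
  have : (PowerSeries.mk fun k => Sq ((k : ℚ) + 1) a b (b + 1)) = 0 := by
    ext k; simp [Sq_b2]
  rw [this, mul_zero]

lemma X_mul_sS (a b c : ℕ) :
    X * sS (a + 1) b c = PowerSeries.mk fun k => Sq (k : ℚ) (a + 1) b c := by
  ext k
  rcases k with _ | k
  · simp [Sq_zero_left]
  · simp [sS, PowerSeries.coeff_succ_X_mul]

lemma L0 (a b c : ℕ) (hc : c ≤ b) (hb : b ≤ a + 1) : U0 Xc (a + 1) b c = gS a b c := by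
  rw [U0_apply]
  rcases Nat.lt_or_ge b (a + 1) with h | h
  · rw [if_pos ⟨hc, h⟩, Nat.add_sub_cancel, Xc_pos (by omega)]
  · rw [if_neg (by omega), show b = a + 1 by omega, gS_b1]

lemma L1 (a b c : ℕ) (hc : c ≤ b + 1) (hb : b + 1 ≤ a) : U1 Xc a (b + 1) c = gS a b c := by
  rw [U1_apply]
  rcases Nat.lt_or_ge c (b + 1) with h | h
  · rw [if_pos ⟨h, hb⟩, Nat.add_sub_cancel, Xc_pos (by omega)]
  · rw [if_neg (by omega), show c = b + 1 by omega, gS_b2]

lemma L2 (a b c : ℕ) (hc : c + 1 ≤ b) (hb : b ≤ a) : U2 Xc a b (c + 1) = gS a b c := by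
  rw [U2_apply, if_pos (by omega), Nat.add_sub_cancel, Xc_pos (by omega)]

lemma L10 (a b c : ℕ) (hc : c ≤ b + 1) (hb : b + 1 ≤ a + 1) :
    U1 (U0 Xc) (a + 1) (b + 1) c = gS a b c := by
  rw [U1_apply]
  rcases Nat.lt_or_ge c (b + 1) with h | h
  · rw [if_pos ⟨h, hb⟩, Nat.add_sub_cancel, L0 _ _ _ (by omega) (by omega)]
  · rw [if_neg (by omega), show c = b + 1 by omega, gS_b2]

lemma L20 (a b c : ℕ) (hc : c + 1 ≤ b) (hb : b ≤ a + 1) :
    U2 (U0 Xc) (a + 1) b (c + 1) = gS a b c := by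
  rw [U2_apply, if_pos (by omega), Nat.add_sub_cancel, L0 _ _ _ (by omega) (by omega)]

lemma L21 (a b c : ℕ) (hc : c + 1 ≤ b + 1) (hb : b + 1 ≤ a) :
    U2 (U1 Xc) a (b + 1) (c + 1) = gS a b c := by
  rw [U2_apply, if_pos (by omega), Nat.add_sub_cancel, L1 _ _ _ (by omega) (by omega)]

lemma L210 (a b c : ℕ) (hc : c + 1 ≤ b + 1) (hb : b + 1 ≤ a + 1) :
    U2 (U1 (U0 Xc)) (a + 1) (b + 1) (c + 1) = gS a b c := by
  rw [U2_apply, if_pos (by omega), Nat.add_sub_cancel, L10 _ _ _ (by omega) (by omega)]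

lemma Xc_eq : P2 (X - 1 : ℚ⟦X⟧) (P1 (X - 1) (P0 (X - 1) Xc)) = (X : ℚ⟦X⟧) • Xc - (X - 1 : ℚ⟦X⟧) • dl := by
  rw [P_expand]
  funext a b c
  simp only [Pi.add_apply, Pi.sub_apply, Pi.smul_apply, smul_eq_mul]
  by_cases hp : c ≤ b ∧ b ≤ a
  · rcases c with _ | c
    · have z2 : ∀ f : ℕ → ℕ → ℕ → ℚ⟦X⟧, U2 f a b 0 = 0 := by
        intro f; rw [U2_apply, if_neg (by omega)]
      rw [z2, z2, z2, z2]
      rcases b with _ | b
      · have z1 : ∀ f : ℕ → ℕ → ℕ → ℚ⟦X⟧, U1 f a 0 0 = 0 := by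
          intro f; rw [U1_apply, if_neg (by omega)]
        rw [z1, z1]
        rcases a with _ | a
        · have z0 : ∀ f : ℕ → ℕ → ℕ → ℚ⟦X⟧, U0 f 0 0 0 = 0 := by
            intro f; rw [U0_apply, if_neg (by omega)]
          rw [z0, Xc_pos (by omega)]
          have hg : gS 0 0 0 = 1 := by
            unfold gS sS
            have : (PowerSeries.mk fun k => Sq ((k : ℚ) + 1) 0 0 0) = (PowerSeries.mk 1 : ℚ⟦X⟧) := by
              ext k; simp [Sq_000]
            rw [this]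
            have := mk_one_mul_one_sub_eq_one ℚ
            rw [mul_comm] at this
            simpa using this
          rw [hg]
          simp [dl]
        · rw [L0 a 0 0 (by omega) (by omega), Xc_pos (by omega)]
          have hd : (dl : ℕ → ℕ → ℕ → ℚ⟦X⟧) (a + 1) 0 0 = 0 := by unfold dl; rw [if_neg (by omega)]
          rw [hd]
          have h := X_mul_sS a 0 0
          have h' : sS (a + 1) 0 0 - sS a 0 0 = X * sS (a + 1) 0 0 := by
            rw [h]
            ext k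
            simp only [sS, map_sub, coeff_mk]
            exact Sq_id2 k a
          unfold gS
          rw [show a + 1 + 0 + 0 + 1 = a + 2 by ring, show a + 0 + 0 + 1 = a + 1 by ring]
          linear_combination ((1 - X : ℚ⟦X⟧) ^ (a + 2)) * h'
      · obtain ⟨a, rfl⟩ : ∃ a', a = a' + 1 := ⟨a - 1, by omega⟩
        rw [L0 _ _ _ (by omega) (by omega), L1 _ _ _ (by omega) (by omega),
          L10 _ _ _ (by omega) (by omega), Xc_pos (by omega)]
        have hd : (dl : ℕ → ℕ → ℕ → ℚ⟦X⟧) (a + 1) (b + 1) 0 = 0 := by unfold dl; rw [if_neg (by omega)]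
        rw [hd]
        have h := X_mul_sS a (b + 1) 0
        have h' : sS (a + 1) (b + 1) 0 - sS a (b + 1) 0 - sS (a + 1) b 0 + sS a b 0
            = X * sS (a + 1) (b + 1) 0 := by
          rw [h]
          ext k
          simp only [sS, map_sub, map_add, coeff_mk]
          exact Sq_id4 k a b
        unfold gS
        rw [show a + 1 + (b + 1) + 0 + 1 = a + b + 3 by ring, show a + (b + 1) + 0 + 1 = a + b + 2 by ring,
          show a + 1 + b + 0 + 1 = a + b + 2 by ring, show a + b + 0 + 1 = a + b + 1 by ring]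
        linear_combination ((1 - X : ℚ⟦X⟧) ^ (a + b + 3)) * h'
    · obtain ⟨b, rfl⟩ : ∃ b', b = b' + 1 := ⟨b - 1, by omega⟩
      obtain ⟨a, rfl⟩ : ∃ a', a = a' + 1 := ⟨a - 1, by omega⟩
      rw [L0 _ _ _ (by omega) (by omega), L1 _ _ _ (by omega) (by omega),
        L2 _ _ _ (by omega) (by omega),
        L10 _ _ _ (by omega) (by omega), L20 _ _ _ (by omega) (by omega),
        L21 _ _ _ (by omega) (by omega), L210 _ _ _ (by omega) (by omega), Xc_pos (by omega)]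
      have hd : (dl : ℕ → ℕ → ℕ → ℚ⟦X⟧) (a + 1) (b + 1) (c + 1) = 0 := by
        unfold dl; rw [if_neg (by omega)]
      rw [hd]
      have h := X_mul_sS a (b + 1) (c + 1)
      have h' : sS (a + 1) (b + 1) (c + 1) - sS a (b + 1) (c + 1) - sS (a + 1) b (c + 1)
          - sS (a + 1) (b + 1) c + sS a b (c + 1) + sS a (b + 1) c + sS (a + 1) b c - sS a b c
          = X * sS (a + 1) (b + 1) (c + 1) := by
        rw [h]
        ext k
        simp only [sS, map_sub, map_add, coeff_mk]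
        exact Sq_id8 k a b c
      unfold gS
      rw [show a + 1 + (b + 1) + (c + 1) + 1 = a + b + c + 4 by ring,
        show a + (b + 1) + (c + 1) + 1 = a + b + c + 3 by ring,
        show a + 1 + b + (c + 1) + 1 = a + b + c + 3 by ring,
        show a + 1 + (b + 1) + c + 1 = a + b + c + 3 by ring,
        show a + b + (c + 1) + 1 = a + b + c + 2 by ring,
        show a + (b + 1) + c + 1 = a + b + c + 2 by ring,
        show a + 1 + b + c + 1 = a + b + c + 2 by ring]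
      linear_combination ((1 - X : ℚ⟦X⟧) ^ (a + b + c + 4)) * h'
  · have hd : (dl : ℕ → ℕ → ℕ → ℚ⟦X⟧) a b c = 0 := by
      unfold dl; rw [if_neg (by omega)]
    rw [Xc_neg hp, hd]
    simp only [U0_apply, U1_apply, U2_apply]
    rw [if_neg (by omega : ¬ (c ≤ b ∧ b < a)), if_neg (by omega : ¬ (c < b ∧ b ≤ a)),
      if_neg (by omega : ¬ (0 < c ∧ c ≤ b ∧ b ≤ a)), if_neg (by omega : ¬ (c < b ∧ b ≤ a)),
      if_neg (by omega : ¬ (0 < c ∧ c ≤ b ∧ b ≤ a)), if_neg (by omega : ¬ (0 < c ∧ c ≤ b ∧ b ≤ a)),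
      if_neg (by omega : ¬ (0 < c ∧ c ≤ b ∧ b ≤ a))]
    ring

lemma xv_eq_Xc : xv (X - 1 : ℚ⟦X⟧) X = Xc := by
  apply uniq_des (X - 1 : ℚ⟦X⟧) X (by ring)
  · intro r hr
    rcases mul_eq_zero.mp hr with h | h
    · exfalso
      have := congrArg (PowerSeries.coeff 0) h
      simp at this
    · exact h
  · exact xv_eq _ _ (by ring)
  · exact Xc_eq

lemma mk_choose_shift (n b : ℕ) :
    (PowerSeries.mk fun k => ((k + n + b).choose (n + 2 * b + 2) : ℚ)) =
      X ^ (b + 2) * (PowerSeries.mk fun k => ((n + 2 * b + 2 + k).choose (n + 2 * b + 2) : ℚ)) := by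
  ext k
  rw [PowerSeries.coeff_X_pow_mul', coeff_mk]
  by_cases h : b + 2 ≤ k
  · rw [if_pos h, coeff_mk]
    congr 2
    omega
  · rw [if_neg h, Nat.choose_eq_zero_of_lt (by omega)]
    simp

lemma sS_diag (n : ℕ) (hn : 1 ≤ n) : sS n n n = ∑ b ∈ range n,
    PowerSeries.C (cnb n (b + 1)) * (X ^ (b + 2) *
      (PowerSeries.mk fun k => ((n + 2 * b + 2 + k).choose (n + 2 * b + 2) : ℚ))) := by
  simp only [← mk_choose_shift]
  ext k
  rw [map_sum]
  simp only [PowerSeries.coeff_C_mul, coeff_mk, sS]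
  rw [← saal n hn k]
  rfl

lemma Xc_diag (n : ℕ) (hn : 1 ≤ n) : Xc n n n = ∑ b ∈ range n,
    PowerSeries.C (cnb n (b + 1)) * (X ^ (b + 2) * (1 - X) ^ (2 * (n - 1 - b))) := by
  rw [Xc_pos (by omega)]
  unfold gS
  rw [sS_diag n hn, mul_sum]
  apply sum_congr rfl
  intro b hb
  rw [mem_range] at hb
  have h := mk_add_choose_mul_one_sub_pow_eq_one ℚ (n + 2 * b + 2)
  rw [show n + n + n + 1 = 2 * (n - 1 - b) + (n + 2 * b + 2 + 1) by omega, pow_add]
  linear_combination (PowerSeries.C (cnb n (b + 1)) * X ^ (b + 2) * (1 - X : ℚ⟦X⟧) ^ (2 * (n - 1 - b))) * h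

lemma W_diag (n : ℕ) (hn : 1 ≤ n) :
    (X : ℚ⟦X⟧) * W (X : ℚ⟦X⟧) ((X - 1) * (X - 1)) n n n = Xc n n n := by
  rw [Xc_diag n hn, W_pos _ _ (by omega), sum_range_succ]
  rw [show n - n = 0 by omega, Vq_zero_diag n hn, map_zero, zero_mul, zero_mul, add_zero, mul_sum]
  rw [← sum_range_reflect]
  apply sum_congr rfl
  intro b hb
  rw [mem_range] at hb
  rw [show n - (n - 1 - b) = b + 1 by omega]
  have h1 : Vq (n - 1 - b) (b + 1) (b + 1) (b + 1) = cnb n (b + 1) := by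
    rw [show n - 1 - b = n - (b + 1) by omega]
    exact Vq_diag n (b + 1) hn (by omega) (by omega)
  rw [h1]
  have h2 : ((X - 1) * (X - 1) : ℚ⟦X⟧) ^ (n - 1 - b) = (1 - X) ^ (2 * (n - 1 - b)) := by
    rw [pow_mul]
    congr 1
    ring
  rw [h2]
  have h3 : algebraMap ℚ ℚ⟦X⟧ (cnb n (b + 1)) = PowerSeries.C (cnb n (b + 1)) := rfl
  rw [h3]
  ring

/-- The key identity of generating functions. -/
lemma main_identity (n : ℕ) (hn : 1 ≤ n) :
    F (M1 (X : ℚ⟦X⟧)) 0 n n n = X * (X * F (M2 (X : ℚ⟦X⟧)) 2 n n n) := by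
  rw [st_total (X - 1) X (by ring) hn, W_diag n hn, ← xv_eq_Xc, xv_diag (X - 1) X (by ring) hn]

end Pool.Agent.H62.Sulanke
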